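import Pool.Agent.Helper91.GT.Key2
import Pool.Graph.R_pool_sql_team_seeded_1acbe0a2.Y18.GX.Count

/-!
# The numbers `B_{m,ψ} / m` and the values with the Euler factor
-/

set_option autoImplicit false

namespace Pool.Agent.Helper91.GT

open Finset Pool.Agent.Y18.GX

/-- `B_{m,ψ} / m` -/
noncomputable def valB (m : ℕ) {N : ℕ} (ψ : DirichletCharacter ℂ N) : ℂ :=
  ((N : ℂ) ^ (m - 1) *
      ∑ a ∈ range N, ψ (a : ZMod N) * (((Polynomial.bernoulli m).eval ((a : ℚ) / N) : ℚ) : ℂ)) / m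

lemma val_eq (p m : ℕ) {N : ℕ} (ψ : DirichletCharacter ℂ N) :
    val p m ψ = (1 - ψ (p : ZMod N) * (p : ℂ) ^ (m - 1)) * valB m ψ := by
  unfold val valB
  rw [mul_div_assoc]

/-- integral elements -/
lemma int_mem (B : ValuationSubring ℂ) (z : ℂ) (hz : IsIntegral ℤ z) : z ∈ B := by
  have h1 : IsIntegral B z := hz.tower_top
  obtain ⟨w, hw⟩ := IsIntegrallyClosed.isIntegral_iff.mp h1
  rw [← hw]
  exact w.2

/-- a unit at `p` has valuation one -/
lemma val_one_of_unit {p : ℕ} (hp : p.Prime) {z : ℂ} (h : Pool.Agent.Y18.GX.IsUnitAt p z) (B : ValuationSubring ℂ)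
    (hB : B.valuation (p : ℂ) < 1) : B.valuation z = 1 := by
  obtain ⟨h0, c, hc, h1, h2⟩ := h
  have hcv : B.valuation ((c : ℤ) : ℂ) = 1 := by
    have h3 : ¬ p ∣ c.natAbs := by
      intro h3
      have h4 : (p : ℤ) ∣ c := Int.natCast_dvd.2 h3
      have h5 := hc.isUnit_of_dvd' (dvd_refl _) h4
      rw [Int.isUnit_iff] at h5
      have := hp.two_le
      rcases h5 with h5 | h5 <;> omega
    have h4 := nat_val hp hB h3
    rcases Int.natAbs_eq c with h5 | h5
    · rw [h5, Int.cast_natCast]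
      exact h4
    · rw [h5, Int.cast_neg, Valuation.map_neg, Int.cast_natCast]
      exact h4
  have h3 := (B.valuation_le_one_iff _).2 (int_mem B _ h1)
  have h4 := (B.valuation_le_one_iff _).2 (int_mem B _ h2)
  rw [map_mul, hcv, one_mul] at h3 h4
  rw [map_inv₀] at h4
  have h5 : B.valuation z ≠ 0 := (B.valuation.ne_zero_iff).2 h0
  refine le_antisymm h3 ?_
  exact (inv_le_one₀ (zero_lt_iff.2 h5)).1 h4

lemma unit_of_val' {p : ℕ} (hp : p.Prime) {z : ℂ}
    (h : ∀ B : ValuationSubring ℂ, B.valuation (p : ℂ) < 1 → B.valuation z = 1) :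
    Pool.Agent.Y18.GX.IsUnitAt p z := by
  refine unit_of_val hp ?_ h
  intro h1
  obtain ⟨B, hB⟩ := exists_over hp
  have h2 := h B hB
  rw [h1, map_zero] at h2
  exact zero_ne_one h2

/-- a product with integral first factor -/
lemma unit_right {p : ℕ} (hp : p.Prime) {x z : ℂ} (h : Pool.Agent.Y18.GX.IsUnitAt p (x * z))
    (hx : ∀ B : ValuationSubring ℂ, B.valuation (p : ℂ) < 1 → B.valuation x ≤ 1)
    (hz : ∀ B : ValuationSubring ℂ, B.valuation (p : ℂ) < 1 → B.valuation z ≤ 1) :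
    Pool.Agent.Y18.GX.IsUnitAt p z := by
  refine unit_of_val' hp fun B hB => ?_
  have h1 := val_one_of_unit hp h B hB
  rw [map_mul] at h1
  refine le_antisymm (hz B hB) ?_
  calc (1 : B.ValueGroup) = B.valuation x * B.valuation z := h1.symm
    _ ≤ 1 * B.valuation z := mul_le_mul_left (hx B hB) _
    _ = B.valuation z := one_mul _

lemma valB_eq {N : ℕ} (hN : 1 < N) {m : ℕ} (hm : 1 ≤ m) (ψ : DirichletCharacter ℂ N) (hψ : ψ.IsPrimitive) :
    valB m ψ = TT m ψ / ((N : ℂ) * ((m.factorial : ℕ) : ℂ) * m) := by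
  have hψ1 : ψ ≠ 1 := by
    intro h
    rw [h, DirichletCharacter.isPrimitive_def] at hψ
    have : NeZero N := ⟨by omega⟩
    rw [DirichletCharacter.conductor_one] at hψ
    omega
  have hT := TT_sum (by omega) (by omega) m ψ hψ1
  have hN0 : (N : ℂ) ≠ 0 := by exact_mod_cast (by omega : N ≠ 0)
  have hm0 : (m : ℂ) ≠ 0 := by exact_mod_cast (by omega : m ≠ 0)
  have hf0 : ((m.factorial : ℕ) : ℂ) ≠ 0 := by exact_mod_cast (Nat.factorial_pos m).ne'
  unfold valB
  rw [hT]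
  have h1 : (N : ℂ) ^ m = (N : ℂ) ^ (m - 1) * N := by
    rw [← pow_succ]
    congr 1
    omega
  rw [h1]
  field_simp

/-- `B_{m,ψ} / m` is integral at `p` -/
lemma valB_le {N : ℕ} (hN : 1 < N) {m : ℕ} (hm : 1 ≤ m) (ψ : DirichletCharacter ℂ N) (hψ : ψ.IsPrimitive)
    {p : ℕ} (hp : p.Prime) (hmp : m < p) (hpN : ¬ p ∣ N) (B : ValuationSubring ℂ) (hB : B.valuation (p : ℂ) < 1) :
    B.valuation (valB m ψ) = B.valuation (TT m ψ) ∧ B.valuation (valB m ψ) ≤ 1 := by
  have hpm : ¬ p ∣ m := fun h => by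
    have := Nat.le_of_dvd (by omega) h
    omega
  have hpf : ¬ p ∣ m.factorial := fun h => by
    have := (hp.dvd_factorial).1 h
    omega
  have h1 : B.valuation (valB m ψ) = B.valuation (TT m ψ) := by
    rw [valB_eq hN hm ψ hψ, map_div₀, map_mul, map_mul, nat_val hp hB hpN, nat_val hp hB hpm, nat_val hp hB hpf]
    simp
  refine ⟨h1, ?_⟩
  rw [h1]
  exact (B.valuation_le_one_iff _).2 (int_mem B _ (TT_int (by omega : N ≠ 0) m ψ))

/-- the numbers `B_{m,ψ} / m` are units at `p` if `p` does not divide the norm -/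
theorem unitB_of_not_dvd {N : ℕ} [NeZero N] (hN : 1 < N) (ψ : DirichletCharacter ℂ N) (hψ : ψ.IsPrimitive) {m : ℕ}
    (hm : 1 ≤ m) (hpar : ψ (-1) = (-1) ^ m) {p : ℕ} (hp : p.Prime) (hmp : m < p) (hpN : ¬ p ∣ N)
    (hD : ¬ p ∣ (DG m ψ).natAbs) : Pool.Agent.Y18.GX.IsUnitAt p (valB m ψ) := by
  obtain ⟨h0, y, hy, hTy⟩ := DG_ne_zero' hN ψ hψ hm hpar
  refine unit_of_val' hp fun B hB => ?_
  rw [(valB_le hN hm ψ hψ hp hmp hpN B hB).1]
  have hDv : B.valuation ((DG m ψ : ℤ) : ℂ) = 1 := by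
    have h1 := nat_val hp hB hD
    rcases Int.natAbs_eq (DG m ψ) with h2 | h2
    · rw [h2, Int.cast_natCast]
      exact h1
    · rw [h2, Int.cast_neg, Valuation.map_neg, Int.cast_natCast]
      exact h1
  have h1 : B.valuation (TT m ψ) ≤ 1 :=
    (B.valuation_le_one_iff _).2 (int_mem B _ (TT_int (by omega : N ≠ 0) m ψ))
  have h2 : B.valuation y ≤ 1 := (B.valuation_le_one_iff _).2 (int_mem B _ hy)
  have h3 := congrArg B.valuation hTy
  rw [map_mul, hDv] at h3
  refine le_antisymm h1 ?_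
  calc (1 : B.ValueGroup) = B.valuation (TT m ψ) * B.valuation y := h3.symm
    _ ≤ B.valuation (TT m ψ) * 1 := mul_le_mul_right h2 _
    _ = B.valuation (TT m ψ) := mul_one _

/-- from the value with the Euler factor -/
lemma unitB_of_val {N : ℕ} (hN : 1 < N) (ψ : DirichletCharacter ℂ N) (hψ : ψ.IsPrimitive) {m : ℕ}
    (hm : 1 ≤ m) {p : ℕ} (hp : p.Prime) (hmp : m < p) (hpN : ¬ p ∣ N)
    (h : Pool.Agent.Y18.GX.IsUnitAt p (val p m ψ)) : Pool.Agent.Y18.GX.IsUnitAt p (valB m ψ) := by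
  rw [val_eq] at h
  refine unit_right hp h (fun B hB => ?_) (fun B hB => (valB_le hN hm ψ hψ hp hmp hpN B hB).2)
  refine (B.valuation_le_one_iff _).2 (sub_mem (one_mem _) (mul_mem (char_mem B (by omega : N ≠ 0) ψ _) ?_))
  exact pow_mem (int_mem B _ (by exact_mod_cast isIntegral_algebraMap (R := ℤ) (A := ℂ) (x := (p : ℤ)))) _

/-- the Euler factor -/
lemma euler_val {N : ℕ} [NeZero N] (ψ : DirichletCharacter ℂ N) {m : ℕ}
    (hm : 1 ≤ m) {p : ℕ} (hp : p.Prime) (hpN : ¬ p ∣ N)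
    (hpd : ¬ p ∣ orderOf ψ) (h1ψ : m = 1 → ψ (p : ZMod N) ≠ 1) (B : ValuationSubring ℂ)
    (hB : B.valuation (p : ℂ) < 1) : B.valuation (1 - ψ (p : ZMod N) * (p : ℂ) ^ (m - 1)) = 1 := by
  set E := 1 - ψ (p : ZMod N) * (p : ℂ) ^ (m - 1) with hE
  rcases hm.eq_or_lt with hm1 | hm2
  · have hE1 : E = 1 - ψ (p : ZMod N) := by
      rw [hE, ← hm1, Nat.sub_self, pow_zero, mul_one]
    have hunit : IsUnit (p : ZMod N) := by
      rw [ZMod.isUnit_iff_coprime, Nat.Prime.coprime_iff_not_dvd hp]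
      exact hpN
    obtain ⟨U, hU⟩ := hunit
    set z := ψ (p : ZMod N) with hzdef
    have hz1 : z ≠ 1 := h1ψ hm1.symm
    have hzd : z ^ orderOf ψ = 1 := by
      rw [hzdef, ← hU, ← MulChar.pow_apply_coe, pow_orderOf_eq_one, MulChar.one_apply_coe]
    have hzB : z ∈ B := char_mem B (NeZero.ne N) ψ _
    have hgeo : ∑ i ∈ range (orderOf ψ), z ^ i = 0 := by
      have h2 := mul_neg_geom_sum z (orderOf ψ)
      rw [hzd, sub_self] at h2
      rcases mul_eq_zero.1 h2 with h3 | h3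
      · exact absurd (sub_eq_zero.1 h3).symm hz1
      · exact h3
    have hprod : (1 - z) * ∑ i ∈ range (orderOf ψ), ∑ j ∈ range i, z ^ j = ((orderOf ψ : ℕ) : ℂ) := by
      rw [Finset.mul_sum]
      have h2 : ∀ i ∈ range (orderOf ψ), (1 - z) * ∑ j ∈ range i, z ^ j = 1 - z ^ i :=
        fun i _ => mul_neg_geom_sum z i
      rw [Finset.sum_congr rfl h2, Finset.sum_sub_distrib, hgeo, sub_zero, Finset.sum_const, card_range,
        nsmul_eq_mul, mul_one]
    have hw : B.valuation (∑ i ∈ range (orderOf ψ), ∑ j ∈ range i, z ^ j) ≤ 1 :=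
      (B.valuation_le_one_iff _).2 (sum_mem fun i _ => sum_mem fun j _ => pow_mem hzB j)
    have hE0 : B.valuation (1 - z) ≤ 1 := (B.valuation_le_one_iff _).2 (sub_mem (one_mem _) hzB)
    have h3 := congrArg B.valuation hprod
    rw [map_mul, nat_val hp hB hpd] at h3
    rw [hE1]
    refine le_antisymm hE0 ?_
    calc (1 : B.ValueGroup) = B.valuation (1 - z) *
          B.valuation (∑ i ∈ range (orderOf ψ), ∑ j ∈ range i, z ^ j) := h3.symm
      _ ≤ B.valuation (1 - z) * 1 := mul_le_mul_right hw _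
      _ = B.valuation (1 - z) := mul_one _
  · have h1 : B.valuation (ψ (p : ZMod N) * (p : ℂ) ^ (m - 1)) < 1 := by
      rw [map_mul, map_pow]
      have h2 : B.valuation (ψ (p : ZMod N)) ≤ 1 :=
        (B.valuation_le_one_iff _).2 (char_mem B (NeZero.ne N) ψ _)
      calc B.valuation (ψ (p : ZMod N)) * B.valuation (p : ℂ) ^ (m - 1)
          ≤ 1 * B.valuation (p : ℂ) ^ (m - 1) := mul_le_mul_left h2 _
        _ = B.valuation (p : ℂ) ^ (m - 1) := one_mul _
        _ < 1 := pow_lt_one' hB (by omega)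
    rw [hE, Valuation.map_sub_swap]
    have h3 := Valuation.map_sub_eq_of_lt_right (v := B.valuation)
      (x := ψ (p : ZMod N) * (p : ℂ) ^ (m - 1)) (y := (1 : ℂ)) (by rw [map_one]; exact h1)
    rw [h3, map_one]

lemma val_of_unitB {N : ℕ} [NeZero N] (ψ : DirichletCharacter ℂ N) {m : ℕ}
    (hm : 1 ≤ m) {p : ℕ} (hp : p.Prime) (hpN : ¬ p ∣ N)
    (hpd : ¬ p ∣ orderOf ψ) (h1ψ : m = 1 → ψ (p : ZMod N) ≠ 1)
    (h : Pool.Agent.Y18.GX.IsUnitAt p (valB m ψ)) : Pool.Agent.Y18.GX.IsUnitAt p (val p m ψ) := by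
  rw [val_eq]
  refine unit_of_val' hp fun B hB => ?_
  rw [map_mul, euler_val ψ hm hp hpN hpd h1ψ B hB, val_one_of_unit hp h B hB, one_mul]

/-- the trivial character -/
lemma unitB_zero {m p : ℕ} (hp : p.Prime) (hm : 2 ≤ m) (he : Even m) (hmp : m + 1 < p) (hb : p ∉ bad0 m) :
    Pool.Agent.Y18.GX.IsUnitAt p (((_root_.bernoulli m : ℚ) : ℂ) / m) := by
  have h := unit_zero hp hm he hmp hb
  rw [mul_div_assoc] at h
  refine unit_of_val' hp fun B hB => ?_
  have h1 := val_one_of_unit hp h B hB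
  have hEv : B.valuation (1 - (p : ℂ) ^ (m - 1)) = 1 := by
    have h1 : B.valuation ((p : ℂ) ^ (m - 1)) < 1 := by
      rw [map_pow]
      exact pow_lt_one' hB (by omega)
    rw [Valuation.map_sub_swap]
    have h3 := Valuation.map_sub_eq_of_lt_right (v := B.valuation)
      (x := (p : ℂ) ^ (m - 1)) (y := (1 : ℂ)) (by rw [map_one]; exact h1)
    rw [h3, map_one]
  rw [map_mul, hEv, one_mul] at h1
  exact h1

end Pool.Agent.Helper91.GT
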