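import Pool.Agent.Helper91.GT.Key2

/-!
# Counting the exceptional primes
-/

set_option autoImplicit false

namespace Pool.Agent.Helper91.GT

open Finset Pool.Agent.Y18.GX Pool.Agent.E8helper53.GS

/-- the primes for which the part of `p ^ ee ℓ - 1` at `ℓ` is large -/
def B1 (ℓ k Y : ℕ) : Finset ℕ := (Icc 5 Y).filter fun p => p.Prime ∧ ℓ ^ (k + 1) ∣ p ^ ee ℓ - 1

lemma card_B1_odd {ℓ : ℕ} (hℓ : ℓ.Prime) (h2 : ℓ ≠ 2) (k Y : ℕ) :
    (B1 ℓ k Y).card ≤ (ℓ - 1) * (Y / ℓ ^ (k + 1) + 1) := by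
  classical
  have he : ee ℓ = ℓ - 1 := if_neg h2
  have hl1 : 0 < ℓ - 1 := by
    have := hℓ.two_le
    omega
  set M := ℓ ^ (k + 1) with hM
  have hM0 : 0 < M := Nat.pow_pos hℓ.pos
  have hne : NeZero M := ⟨hM0.ne'⟩
  have hcyc : IsCyclic (ZMod M)ˣ := ZMod.isCyclic_units_of_prime_pow ℓ hℓ h2 (k + 1)
  have hunit : ∀ p ∈ B1 ℓ k Y, ∃ u : (ZMod M)ˣ, (u : ZMod M) = (p : ZMod M) ∧ u ^ (ℓ - 1) = 1 := by
    intro p hp
    unfold B1 at hp
    rw [mem_filter, mem_Icc, he] at hp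
    obtain ⟨⟨h5, -⟩, hpp, hd⟩ := hp
    have h1 : ((p : ZMod M)) ^ (ℓ - 1) = 1 := by
      have h3 : 1 ≤ p ^ (ℓ - 1) := Nat.one_le_pow _ _ hpp.pos
      have h4 := (Nat.modEq_iff_dvd' h3).2 hd
      have h6 := (ZMod.natCast_eq_natCast_iff _ _ _).2 h4
      push_cast at h6
      exact h6.symm
    have hu : IsUnit (p : ZMod M) := by
      refine (isUnit_pow_iff hl1.ne').1 ?_
      rw [h1]
      exact isUnit_one
    obtain ⟨u, hu⟩ := hu
    refine ⟨u, hu, ?_⟩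
    apply Units.ext
    rw [Units.val_pow_eq_pow_val, hu, h1, Units.val_one]
  choose! u hu1 hu2 using hunit
  have hcard := IsCyclic.card_pow_eq_one_le (α := (ZMod M)ˣ) hl1
  calc (B1 ℓ k Y).card ≤ ((univ.filter fun a : (ZMod M)ˣ => a ^ (ℓ - 1) = 1) ×ˢ range (Y / M + 1)).card := by
        refine Finset.card_le_card_of_injOn (fun p => (u p, p / M)) ?_ ?_
        · intro p hp
          have hp' := mem_coe.1 hp
          rw [mem_coe, mem_product, mem_filter, mem_range]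
          refine ⟨⟨mem_univ _, hu2 p hp'⟩, Nat.lt_succ_of_le (Nat.div_le_div_right ?_)⟩
          unfold B1 at hp'
          exact (mem_Icc.1 (mem_filter.1 hp').1).2
        · intro p hp q hq hpq
          have hp' := mem_coe.1 hp
          have hq' := mem_coe.1 hq
          simp only [Prod.mk.injEq] at hpq
          have h1 : (p : ZMod M) = (q : ZMod M) := by rw [← hu1 p hp', ← hu1 q hq', hpq.1]
          have h3 : p % M = q % M := (ZMod.natCast_eq_natCast_iff _ _ _).1 h1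
          rw [← Nat.div_add_mod p M, ← Nat.div_add_mod q M, hpq.2, h3]
    _ = (univ.filter fun a : (ZMod M)ˣ => a ^ (ℓ - 1) = 1).card * (Y / M + 1) := by
        rw [card_product, card_range]
    _ ≤ (ℓ - 1) * (Y / M + 1) := Nat.mul_le_mul_right _ hcard

lemma card_B1 {ℓ : ℕ} (hℓ : ℓ.Prime) (k Y : ℕ) : (B1 ℓ k Y).card ≤ 2 * (Y / ℓ ^ k) + ℓ := by
  have hpos : 0 < ℓ ^ k := Nat.pow_pos hℓ.pos
  by_cases h2 : ℓ = 2
  · subst h2
    have h1 : B1 2 k Y = A1 2 k Y := rfl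
    rw [h1]
    have h3 := card_A1 (Or.inl rfl : (2 = 2 ∨ 2 = 3)) k Y
    have h4 : (Y + 1) / 2 ^ k ≤ Y / 2 ^ k + 1 := by
      rw [← Nat.add_div_right _ hpos]
      exact Nat.div_le_div_right (by omega)
    omega
  · have h1 := card_B1_odd hℓ h2 k Y
    have h3 : ℓ * (Y / ℓ ^ (k + 1)) ≤ Y / ℓ ^ k := by
      rw [pow_succ, ← Nat.div_div_eq_div_mul]
      exact Nat.mul_div_le _ _
    have h4 : (ℓ - 1) * (Y / ℓ ^ (k + 1) + 1) ≤ ℓ * (Y / ℓ ^ (k + 1) + 1) := Nat.mul_le_mul_right _ (by omega)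
    have h5 : ℓ * (Y / ℓ ^ (k + 1) + 1) = ℓ * (Y / ℓ ^ (k + 1)) + ℓ := by ring
    omega

/-- the products of `r` powers -/
def WW (Z κ : ℕ) : ℕ → Finset ℕ
  | 0 => {1}
  | r + 1 => ((WW Z κ r) ×ˢ (Icc 1 Z ×ˢ range (κ + 1))).image fun q => q.1 * q.2.1 ^ q.2.2

lemma card_WW (Z κ r : ℕ) : (WW Z κ r).card ≤ (Z * (κ + 1)) ^ r := by
  induction r with
  | zero => simp [WW]
  | succ r ih =>
    unfold WW
    refine card_image_le.trans ?_
    rw [card_product, card_product, Nat.card_Icc, card_range, Nat.add_sub_cancel, pow_succ]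
    exact Nat.mul_le_mul_right _ ih

lemma mem_WW {Z κ : ℕ} (hZ : 1 ≤ Z) (r : ℕ) : ∀ W : ℕ, W ≠ 0 → W.primeFactors.card ≤ r →
    (∀ ℓ ∈ W.primeFactors, ℓ ≤ Z ∧ W.factorization ℓ ≤ κ) → W ∈ WW Z κ r := by
  induction r with
  | zero =>
    intro W hW hr _
    have h1 : W.primeFactors = ∅ := card_eq_zero.1 (by omega)
    rw [Nat.primeFactors_eq_empty] at h1
    rcases h1 with h1 | h1
    · exact absurd h1 hW
    · rw [h1]
      simp [WW]
  | succ r ih =>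
    intro W hW hr h
    unfold WW
    rw [mem_image]
    by_cases h1 : W = 1
    · refine ⟨(1, (1, 0)), ?_, by simp [h1]⟩
      rw [mem_product, mem_product, mem_Icc, mem_range]
      exact ⟨ih 1 one_ne_zero (by simp) (by simp), ⟨le_rfl, hZ⟩, Nat.succ_pos κ⟩
    · obtain ⟨ℓ, hℓ, hd⟩ := Nat.exists_prime_and_dvd h1
      have hmem : ℓ ∈ W.primeFactors := Nat.mem_primeFactors.2 ⟨hℓ, hd, hW⟩
      refine ⟨(W / ℓ ^ W.factorization ℓ, (ℓ, W.factorization ℓ)), ?_, ?_⟩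
      · rw [mem_product, mem_product, mem_Icc, mem_range]
        refine ⟨?_, ⟨hℓ.one_lt.le, (h ℓ hmem).1⟩, Nat.lt_succ_of_le (h ℓ hmem).2⟩
        have hfac := Nat.factorization_ordCompl W ℓ
        have hpf : (W / ℓ ^ W.factorization ℓ).primeFactors = W.primeFactors.erase ℓ := by
          rw [← Nat.support_factorization, hfac, Finsupp.support_erase, Nat.support_factorization]
        refine ih _ (Nat.ordCompl_pos ℓ hW).ne' ?_ ?_
        · rw [hpf, card_erase_of_mem hmem]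
          omega
        · intro q hq
          rw [hpf, mem_erase] at hq
          rw [hfac, Finsupp.erase_ne hq.1]
          exact h q hq.2
      · exact Nat.div_mul_cancel (Nat.ordProj_dvd W ℓ)

/-- the `W` of the count -/
def VV (Z κ r : ℕ) : Finset ℕ := (WW Z κ r).filter fun W => W ≠ 0 ∧ W.primeFactors.card ≤ r ∧
  ∀ ℓ ∈ W.primeFactors, ℓ ≤ Z ∧ W.factorization ℓ ≤ κ

lemma le_rexp {n : ℕ → ℕ} {Z κ r W T : ℕ} (hW : W ∈ VV Z κ r) (hZ : 1 ≤ Z) (hT1 : 1 ≤ T)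
    (hT : ∀ ℓ, ℓ.Prime → ℓ ≤ Z → ℓ ^ n ℓ ≤ T) : W ≤ rexp n W * (T * Z ^ 2) ^ r := by
  unfold VV at hW
  rw [mem_filter] at hW
  obtain ⟨-, hW0, hr, h⟩ := hW
  have hprodW : ∏ ℓ ∈ W.primeFactors, ℓ ^ W.factorization ℓ = W := Nat.prod_factorization_pow_eq_self hW0
  have hTZ : 1 ≤ T * Z ^ 2 := Nat.mul_pos hT1 (Nat.pow_pos hZ)
  calc W = ∏ ℓ ∈ W.primeFactors, ℓ ^ W.factorization ℓ := hprodW.symm
    _ ≤ ∏ ℓ ∈ W.primeFactors, (ℓ ^ (W.factorization ℓ - 2 - n ℓ) * (T * Z ^ 2)) := by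
        refine Finset.prod_le_prod' fun ℓ hℓ => ?_
        have hℓp := Nat.prime_of_mem_primeFactors hℓ
        calc ℓ ^ W.factorization ℓ ≤ ℓ ^ (W.factorization ℓ - 2 - n ℓ) * (ℓ ^ n ℓ * ℓ ^ 2) := by
              rw [← pow_add, ← pow_add]
              exact Nat.pow_le_pow_right hℓp.pos (by omega)
          _ ≤ ℓ ^ (W.factorization ℓ - 2 - n ℓ) * (T * Z ^ 2) := by
              refine Nat.mul_le_mul_left _ (Nat.mul_le_mul (hT ℓ hℓp (h ℓ hℓ).1) ?_)
              exact Nat.pow_le_pow_left (h ℓ hℓ).1 2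
    _ = rexp n W * (T * Z ^ 2) ^ W.primeFactors.card := by
        rw [Finset.prod_mul_distrib, Finset.prod_const]
        rfl
    _ ≤ rexp n W * (T * Z ^ 2) ^ r := Nat.mul_le_mul_left _ (Nat.pow_le_pow_right hTZ hr)

lemma VV_le {Z κ r W : ℕ} (hW : W ∈ VV Z κ r) (hZ : 1 ≤ Z) : W ≤ Z ^ (κ * r) := by
  unfold VV at hW
  rw [mem_filter] at hW
  obtain ⟨-, hW0, hr, h⟩ := hW
  have hprodW : ∏ ℓ ∈ W.primeFactors, ℓ ^ W.factorization ℓ = W := Nat.prod_factorization_pow_eq_self hW0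
  calc W = ∏ ℓ ∈ W.primeFactors, ℓ ^ W.factorization ℓ := hprodW.symm
    _ ≤ ∏ _ℓ ∈ W.primeFactors, Z ^ κ := by
        refine Finset.prod_le_prod' fun ℓ hℓ => ?_
        exact (Nat.pow_le_pow_left (h ℓ hℓ).1 _).trans (Nat.pow_le_pow_right hZ (h ℓ hℓ).2)
    _ = (Z ^ κ) ^ W.primeFactors.card := by rw [Finset.prod_const]
    _ ≤ (Z ^ κ) ^ r := Nat.pow_le_pow_right (Nat.pow_pos hZ) hr
    _ = Z ^ (κ * r) := by rw [← pow_mul]

open Classical in
/-- the exceptional primes of the small levels -/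
noncomputable def B2 (n : ℕ → ℕ) (Z κ r Q : ℕ) : Finset ℕ :=
  (Icc 1 Q).biUnion fun a => ((Icc 1 (Q / a) ×ˢ VV Z κ r).filter fun q => 1 < a * q.2).biUnion
    fun q => badR (a * q.2) q.1 (rexp n q.2)

lemma card_B2 {n : ℕ → ℕ} {Z κ r Q T t : ℕ} (hZ : 1 ≤ Z) (hT1 : 1 ≤ T)
    (hT : ∀ ℓ, ℓ.Prime → ℓ ≤ Z → ℓ ^ n ℓ ≤ T) (hZt : Z ≤ 2 ^ t) (hQt : Q ≤ 2 ^ t) :
    (B2 n Z κ r Q).card ≤ (∑ a ∈ Icc 1 Q, Q / a) * ((Z * (κ + 1)) ^ r *
      ((T * Z ^ 2) ^ r * ((t * (κ * r + 1)) * (5 * Q)))) := by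
  classical
  set s := t * (κ * r + 1) with hs
  unfold B2
  refine card_biUnion_le.trans ?_
  rw [sum_mul]
  refine sum_le_sum fun a ha => ?_
  rw [mem_Icc] at ha
  calc _ ≤ ∑ q ∈ (Icc 1 (Q / a) ×ˢ VV Z κ r).filter (fun q => 1 < a * q.2),
        (badR (a * q.2) q.1 (rexp n q.2)).card := card_biUnion_le
    _ ≤ ∑ q ∈ (Icc 1 (Q / a) ×ˢ VV Z κ r).filter (fun q => 1 < a * q.2),
        (T * Z ^ 2) ^ r * (s * (5 * Q)) := by
        refine sum_le_sum fun q hq => ?_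
        rw [mem_filter, mem_product, mem_Icc] at hq
        obtain ⟨⟨⟨h1, h2⟩, h3⟩, h6⟩ := hq
        have hq1 : a * q.1 ≤ Q := by
          calc a * q.1 ≤ a * (Q / a) := Nat.mul_le_mul_left _ h2
            _ ≤ Q := Nat.mul_div_le Q a
        have hq2 : q.1 ≤ Q := (Nat.le_mul_of_pos_left _ (by omega)).trans hq1
        have hN : a * q.2 ≤ 2 ^ s := by
          calc a * q.2 ≤ 2 ^ t * (2 ^ t) ^ (κ * r) :=
                Nat.mul_le_mul (ha.2.trans hQt) ((VV_le h3 hZ).trans (Nat.pow_le_pow_left hZt _))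
            _ = 2 ^ s := by
                rw [← pow_mul, ← pow_add, hs]
                congr 1
                ring
        have hts : t ≤ s := Nat.le_mul_of_pos_right _ (by omega)
        have hms : q.1 ≤ 2 ^ s := (hq2.trans hQt).trans (Nat.pow_le_pow_right (by norm_num) hts)
        have h8 := card_badR' (s := s) (r := rexp n q.2) h6 h1 hN hms
        have h9 := le_rexp h3 hZ hT1 hT
        have hr0 : 0 < rexp n q.2 := by
          unfold rexp
          exact Finset.prod_pos fun ℓ hℓ => Nat.pow_pos (Nat.prime_of_mem_primeFactors hℓ).pos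
        have h11 : a * (3 * q.1 + 2) ≤ 5 * Q := by
          calc a * (3 * q.1 + 2) ≤ a * (5 * q.1) := Nat.mul_le_mul_left _ (by omega)
            _ = 5 * (a * q.1) := by ring
            _ ≤ 5 * Q := Nat.mul_le_mul_left _ hq1
        have h10 : rexp n q.2 * (badR (a * q.2) q.1 (rexp n q.2)).card ≤
            rexp n q.2 * ((T * Z ^ 2) ^ r * (s * (5 * Q))) := by
          calc _ ≤ a * q.2 * (s * (3 * q.1 + 2)) := h8
            _ = q.2 * (s * (a * (3 * q.1 + 2))) := by ring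
            _ ≤ (rexp n q.2 * (T * Z ^ 2) ^ r) * (s * (5 * Q)) :=
                Nat.mul_le_mul h9 (Nat.mul_le_mul_left _ h11)
            _ = _ := by ring
        exact Nat.le_of_mul_le_mul_left h10 hr0
    _ ≤ ∑ q ∈ Icc 1 (Q / a) ×ˢ VV Z κ r, (T * Z ^ 2) ^ r * (s * (5 * Q)) :=
        sum_le_sum_of_subset (filter_subset _ _)
    _ = (Q / a) * (VV Z κ r).card * ((T * Z ^ 2) ^ r * (s * (5 * Q))) := by
        rw [sum_const, card_product, Nat.card_Icc, Nat.add_sub_cancel, smul_eq_mul]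
    _ ≤ (Q / a) * (Z * (κ + 1)) ^ r * ((T * Z ^ 2) ^ r * (s * (5 * Q))) := by
        refine Nat.mul_le_mul_right _ (Nat.mul_le_mul_left _ ?_)
        exact (card_le_card (filter_subset _ _)).trans (card_WW Z κ r)
    _ = _ := by ring

end Pool.Agent.Helper91.GT
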