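import Pool.Agent.Helper91.GT.Cnt2
import Pool.Agent.Helper91.GT.Bern

/-!
# All levels, for all primes outside of the exceptional sets
-/

set_option autoImplicit false

namespace Pool.Agent.Helper91.GT

open Finset Pool.Agent.Y18.GX Pool.Agent.E8helper53.GS

lemma decomp {N₁ W₀ : ℕ} (hN₁ : N₁ ≠ 0) (hW₀ : W₀ ≠ 0) : ∃ a W : ℕ, N₁ * W₀ = a * W ∧ a ≠ 0 ∧ a ≤ N₁ ∧
    a.Coprime W ∧ W ≠ 0 ∧ W.primeFactors = W₀.primeFactors := by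
  classical
  have hprime : ∀ ℓ ∈ W₀.primeFactors, ℓ.Prime := fun ℓ hℓ => Nat.prime_of_mem_primeFactors hℓ
  set b := ∏ ℓ ∈ W₀.primeFactors, ℓ ^ N₁.factorization ℓ with hb
  have hbd : b ∣ N₁ := prod_fac_dvd hprime hN₁
  have hb0 : b ≠ 0 := fun h => hN₁ (Nat.eq_zero_of_zero_dvd (h ▸ hbd))
  obtain ⟨a, ha⟩ := hbd
  have ha0 : a ≠ 0 := by
    rintro rfl
    exact hN₁ (by rw [ha, mul_zero])
  have hsub : b.primeFactors ⊆ W₀.primeFactors := by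
    intro q hq
    exact mem_of_dvd_prod hprime N₁.factorization (Nat.prime_of_mem_primeFactors hq) (Nat.dvd_of_mem_primeFactors hq)
  have hpf : (b * W₀).primeFactors = W₀.primeFactors := by
    rw [Nat.primeFactors_mul hb0 hW₀, Finset.union_eq_right]
    exact hsub
  refine ⟨a, b * W₀, ?_, ha0, ?_, ?_, mul_ne_zero hb0 hW₀, hpf⟩
  · rw [ha]
    ring
  · rw [ha]
    exact Nat.le_mul_of_pos_left _ (Nat.pos_of_ne_zero hb0)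
  · by_contra hcon
    obtain ⟨q, hq, h1, h2⟩ := Nat.Prime.not_coprime_iff_dvd.1 hcon
    have hq2 : q ∈ W₀.primeFactors := by
      rw [← hpf]
      exact Nat.mem_primeFactors.2 ⟨hq, h2, mul_ne_zero hb0 hW₀⟩
    have h3 := congrArg (fun x => x.factorization q) ha
    simp only [Nat.factorization_mul hb0 ha0, Finsupp.add_apply] at h3
    rw [hb, fac_prod hprime, if_pos hq2] at h3
    have h4 := hq.factorization_pos_of_dvd ha0 h1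
    omega

lemma lt_of_mem_factors {p a W : ℕ} (ha0 : a ≠ 0) (hap : a < p) (hW0 : W ≠ 0)
    (hWp : ∀ ℓ ∈ W.primeFactors, ℓ < p) {N : ℕ} (hN : N = a * W) : ∀ q ∈ N.primeFactors, q < p := by
  intro q hq
  have hq' := Nat.prime_of_mem_primeFactors hq
  have hd := Nat.dvd_of_mem_primeFactors hq
  rw [hN] at hd
  rcases (hq'.dvd_mul).1 hd with h | h
  · have := Nat.le_of_dvd (Nat.pos_of_ne_zero ha0) h
    omega
  · exact hWp q (Nat.mem_primeFactors.2 ⟨hq', h, hW0⟩)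

lemma unit_smallB {p : ℕ} (hp : p.Prime) {n : ℕ → ℕ} {a W m : ℕ} (hm : 1 ≤ m) (hmp : m < p)
    (hcop : a.Coprime W) (ha0 : a ≠ 0) (hap : a < p) (hW0 : W ≠ 0) (hWp : ∀ ℓ ∈ W.primeFactors, ℓ < p)
    (hn : ∀ ℓ ∈ W.primeFactors, ¬ ℓ ^ (n ℓ + 1) ∣ p ^ ee ℓ - 1) {N : ℕ} (hN : N = a * W) (hN1 : 1 < N)
    (hbad : p ∉ badR N m (rexp n W))
    (ψ : DirichletCharacter ℂ N) (hprim : ψ.IsPrimitive) (hpar : ψ (-1) = (-1) ^ m) :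
    Pool.Agent.Y18.GX.IsUnitAt p (valB m ψ) := by
  classical
  have hne : NeZero N := ⟨by omega⟩
  have hNp := lt_of_mem_factors ha0 hap hW0 hWp hN
  have hpN : ¬ p ∣ N := fun h => by
    have := hNp p (Nat.mem_primeFactors.2 ⟨hp, h, hne.out⟩)
    omega
  have hord := not_dvd_order2 hp hne.out hNp ψ
  refine unitB_of_not_dvd hN1 ψ hprim hm hpar hp hmp hpN fun hD => hbad ?_
  obtain ⟨h0, -⟩ := DG_ne_zero' hN1 ψ hprim hm hpar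
  obtain ⟨f, hf, hfD, hfd⟩ := Pool.Agent.Y18.GX.norm_pow (order_pos ψ) hp hord (RG m ψ) hD
  have hfD' : p ^ f ∣ (DG m ψ).natAbs := hfD
  have hr : rexp n W ≤ f := Nat.le_of_dvd hf (rexp_dvd hp hcop ha0 hW0 hWp hn hN ψ hprim hf hfd)
  rw [badR_eq, mem_biUnion]
  refine ⟨ψ, mem_filter.2 ⟨mem_univ _, hprim, hpar⟩, mem_filter.2 ⟨?_, (pow_dvd_pow p hr).trans hfD'⟩⟩
  rw [Nat.mem_primeFactors]
  exact ⟨hp, hD, Int.natAbs_ne_zero.2 h0⟩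

lemma all_unitsB {p : ℕ} (hp : p.Prime) (h5 : 5 ≤ p) {n : ℕ → ℕ} {r Z Q T Y κ : ℕ} (hpY : p ≤ Y) (hZ : 1 ≤ Z)
    (hT1 : 1 ≤ T) (hT : ∀ ℓ, ℓ.Prime → ℓ ≤ Z → ℓ ^ n ℓ ≤ T)
    (hκ : (2 * Q * Y * (T ^ r * (4 * Z ^ (2 * r) * Q) + 1) ^ 3) ^ ((Z + 1) ^ r) ≤ 2 ^ κ)
    (hB1 : ∀ ℓ, ℓ.Prime → ℓ ≤ Z → p ∉ B1 ℓ (n ℓ) Y) (hB2 : p ∉ B2 n Z κ r Q)
    {N₁ W₀ m : ℕ} (hN₁ : N₁ ≠ 0) (hW₀ : W₀ ≠ 0) (hm : 1 ≤ m) (hmQ : m * N₁ ≤ Q) (hmp : m < p) (hN₁p : N₁ < p)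
    (hr : W₀.primeFactors.card ≤ r) (hWZ : ∀ ℓ ∈ W₀.primeFactors, ℓ ≤ Z)
    (hWp : ∀ ℓ ∈ W₀.primeFactors, ℓ < p) {N : ℕ} (hN : N = N₁ * W₀) (hN1 : 1 < N)
    (ψ : DirichletCharacter ℂ N) (hprim : ψ.IsPrimitive) (hpar : ψ (-1) = (-1) ^ m) :
    Pool.Agent.Y18.GX.IsUnitAt p (valB m ψ) ∧
      ((m = 1 → ψ (p : ZMod N) ≠ 1) → Pool.Agent.Y18.GX.IsUnitAt p (val p m ψ)) := by
  obtain ⟨a, W, h1, ha0, haN, hcop, hW0, hpf⟩ := decomp hN₁ hW₀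
  rw [← hN] at h1
  rw [← hpf] at hr hWZ hWp
  have hprime : ∀ ℓ ∈ W.primeFactors, ℓ.Prime := fun ℓ hℓ => Nat.prime_of_mem_primeFactors hℓ
  have hn : ∀ ℓ ∈ W.primeFactors, ¬ ℓ ^ (n ℓ + 1) ∣ p ^ ee ℓ - 1 := by
    intro ℓ hℓ hd
    refine hB1 ℓ (hprime ℓ hℓ) (hWZ ℓ hℓ) ?_
    unfold B1
    exact mem_filter.2 ⟨mem_Icc.2 ⟨h5, hpY⟩, hp, hd⟩
  have hNQ : N₁ ≤ Q := (Nat.le_mul_of_pos_left _ (by omega)).trans hmQ
  have haQ : a ≤ Q := haN.trans hNQ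
  have hap : a < p := lt_of_le_of_lt haN hN₁p
  have hne : NeZero N := ⟨by omega⟩
  have hNp := lt_of_mem_factors ha0 hap hW0 hWp h1
  have hpN : ¬ p ∣ N := fun h => by
    have := hNp p (Nat.mem_primeFactors.2 ⟨hp, h, hne.out⟩)
    omega
  suffices hB : Pool.Agent.Y18.GX.IsUnitAt p (valB m ψ) from
    ⟨hB, fun h1ψ => val_of_unitB ψ hm hp hpN (not_dvd_order2 hp hne.out hNp ψ) h1ψ hB⟩
  by_cases hbig : ∃ ℓ ∈ W.primeFactors, κ ≤ W.factorization ℓ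
  · obtain ⟨ℓ₀, hℓ₀, hb⟩ := hbig
    refine unitB_of_val hN1 ψ hprim hm hp hmp hpN ?_
    exact unit_large2 hp h5 hm hmp hcop ha0 hap haQ hpY hW0 hWp hWZ hr hZ hn
      (fun ℓ hℓ => hT ℓ (hprime ℓ hℓ) (hWZ ℓ hℓ)) hT1 hκ hℓ₀ hb h1 ψ hprim hpar
  · push Not at hbig
    refine unit_smallB hp hm hmp hcop ha0 hap hW0 hWp hn h1 hN1 ?_ ψ hprim hpar
    intro hbad
    apply hB2
    have hV : W ∈ VV Z κ r := by
      unfold VV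
      rw [mem_filter]
      have h2 : ∀ ℓ ∈ W.primeFactors, ℓ ≤ Z ∧ W.factorization ℓ ≤ κ := fun ℓ hℓ => ⟨hWZ ℓ hℓ, (hbig ℓ hℓ).le⟩
      exact ⟨mem_WW hZ r W hW0 hr h2, hW0, hr, h2⟩
    unfold B2
    rw [mem_biUnion]
    refine ⟨a, mem_Icc.2 ⟨Nat.pos_of_ne_zero ha0, haQ⟩, ?_⟩
    rw [mem_biUnion]
    refine ⟨(m, W), mem_filter.2 ⟨?_, ?_⟩, ?_⟩
    · rw [mem_product, mem_Icc]
      refine ⟨⟨hm, ?_⟩, hV⟩
      rw [Nat.le_div_iff_mul_le (Nat.pos_of_ne_zero ha0)]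
      exact (Nat.mul_le_mul_left m haN).trans hmQ
    · rw [← h1]
      exact hN1
    · rw [h1] at hbad
      exact hbad

end Pool.Agent.Helper91.GT
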