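import Pool.Agent.Helper91.GT.Small2

/-!
# All levels `a W`: large exponents by the effective theorem, small exponents by the norms
-/

set_option autoImplicit false

namespace Pool.Agent.Helper91.GT

open Finset Pool.Agent.Y18.GX Pool.Agent.E8helper53.GS

/-- the bound for the part of `p ^ g - 1` at the prime factors of `W` -/
lemma spart_lt {p : ℕ} (hp : p.Prime) {n : ℕ → ℕ} {a W r Z Q T : ℕ}
    (hap : a ≤ Q) (hWp : ∀ ℓ ∈ W.primeFactors, ℓ < p)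
    (hWZ : ∀ ℓ ∈ W.primeFactors, ℓ ≤ Z) (hr : W.primeFactors.card ≤ r) (hZ : 1 ≤ Z)
    (hn : ∀ ℓ ∈ W.primeFactors, ¬ ℓ ^ (n ℓ + 1) ∣ p ^ ee ℓ - 1)
    (hT : ∀ ℓ ∈ W.primeFactors, ℓ ^ n ℓ ≤ T) (hT1 : 1 ≤ T) {D h : ℕ}
    (hD : D = 4 * ∏ ℓ ∈ W.primeFactors, (ℓ * (ℓ - 1))) (hD0 : 0 < D.totient) (hh : 0 < h) (hha : h ≤ a) :
    ∏ ℓ ∈ W.primeFactors, ℓ ^ (p ^ (D.totient * h) - 1).factorization ℓ < T ^ r * (4 * Z ^ (2 * r) * Q) + 1 := by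
  set g := D.totient * h with hg
  have hg0 : g ≠ 0 := Nat.mul_ne_zero hD0.ne' hh.ne'
  have hprime : ∀ ℓ ∈ W.primeFactors, ℓ.Prime := fun ℓ hℓ => Nat.prime_of_mem_primeFactors hℓ
  have h1 : ∏ ℓ ∈ W.primeFactors, ℓ ^ (p ^ g - 1).factorization ℓ ≤
      ∏ ℓ ∈ W.primeFactors, (ℓ ^ n ℓ * ℓ ^ g.factorization ℓ) := by
    refine Finset.prod_le_prod' fun ℓ hℓ => ?_
    rw [← pow_add]
    exact Nat.pow_le_pow_right (hprime ℓ hℓ).pos (lte3 hp (hprime ℓ hℓ) (hWp ℓ hℓ).ne' (hn ℓ hℓ) hg0)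
  have h2 : ∏ ℓ ∈ W.primeFactors, ℓ ^ n ℓ ≤ T ^ r := by
    calc ∏ ℓ ∈ W.primeFactors, ℓ ^ n ℓ ≤ ∏ _ℓ ∈ W.primeFactors, T := Finset.prod_le_prod' fun ℓ hℓ => hT ℓ hℓ
      _ = T ^ W.primeFactors.card := by rw [Finset.prod_const]
      _ ≤ T ^ r := Nat.pow_le_pow_right hT1 hr
  have h3 : ∏ ℓ ∈ W.primeFactors, ℓ ^ g.factorization ℓ ≤ g :=
    Nat.le_of_dvd (Nat.pos_of_ne_zero hg0) (prod_fac_dvd hprime hg0)
  have h4 : D ≤ 4 * Z ^ (2 * r) := by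
    rw [hD]
    refine Nat.mul_le_mul_left _ ?_
    calc ∏ ℓ ∈ W.primeFactors, (ℓ * (ℓ - 1)) ≤ ∏ _ℓ ∈ W.primeFactors, Z ^ 2 := by
          refine Finset.prod_le_prod' fun ℓ hℓ => ?_
          rw [pow_two]
          have := hWZ ℓ hℓ
          exact Nat.mul_le_mul this (by omega)
      _ = (Z ^ 2) ^ W.primeFactors.card := by rw [Finset.prod_const]
      _ ≤ (Z ^ 2) ^ r := Nat.pow_le_pow_right (Nat.pow_pos hZ) hr
      _ = Z ^ (2 * r) := by rw [← pow_mul]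
  have h5 : g ≤ 4 * Z ^ (2 * r) * Q := Nat.mul_le_mul ((Nat.totient_le D).trans h4) (hha.trans hap)
  rw [Finset.prod_mul_distrib] at h1
  exact Nat.lt_succ_of_le (h1.trans (Nat.mul_le_mul h2 (h3.trans h5)))

lemma unit_large2 {p : ℕ} (hp : p.Prime) (h5 : 5 ≤ p) {n : ℕ → ℕ} {a W m r Z Q T Y κ : ℕ} (hm : 1 ≤ m) (hmp : m < p)
    (hcop : a.Coprime W) (ha0 : a ≠ 0) (hap : a < p) (haQ : a ≤ Q) (hpY : p ≤ Y) (hW0 : W ≠ 0)
    (hWp : ∀ ℓ ∈ W.primeFactors, ℓ < p) (hWZ : ∀ ℓ ∈ W.primeFactors, ℓ ≤ Z) (hr : W.primeFactors.card ≤ r)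
    (hZ : 1 ≤ Z) (hn : ∀ ℓ ∈ W.primeFactors, ¬ ℓ ^ (n ℓ + 1) ∣ p ^ ee ℓ - 1)
    (hT : ∀ ℓ ∈ W.primeFactors, ℓ ^ n ℓ ≤ T) (hT1 : 1 ≤ T)
    (hκ : (2 * Q * Y * (T ^ r * (4 * Z ^ (2 * r) * Q) + 1) ^ 3) ^ ((Z + 1) ^ r) ≤ 2 ^ κ)
    {ℓ₀ : ℕ} (hℓ₀ : ℓ₀ ∈ W.primeFactors) (hbig : κ ≤ W.factorization ℓ₀) {N : ℕ} (hN : N = a * W)
    (ψ : DirichletCharacter ℂ N) (hprim : ψ.IsPrimitive) (hpar : ψ (-1) = (-1) ^ m) :
    Pool.Agent.Y18.GX.IsUnitAt p (val p m ψ) := by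
  have hprime : ∀ ℓ ∈ W.primeFactors, ℓ.Prime := fun ℓ hℓ => Nat.prime_of_mem_primeFactors hℓ
  obtain ⟨D, hD⟩ : ∃ D, D = 4 * ∏ ℓ ∈ W.primeFactors, (ℓ * (ℓ - 1)) := ⟨_, rfl⟩
  have hDpos : 0 < D := by
    rw [hD]
    refine Nat.mul_pos (by norm_num) (Finset.prod_pos fun ℓ hℓ => ?_)
    have := (hprime ℓ hℓ).two_le
    exact Nat.mul_pos (by omega) (by omega)
  have hDt : 0 < D.totient := Nat.totient_pos.2 hDpos
  have hnotdvd : ∀ k : ℕ, 0 < k → k < p → Nat.Coprime p k := fun k hk hkp =>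
    (Nat.Prime.coprime_iff_not_dvd hp).2 fun h => by
      have := Nat.le_of_dvd hk h
      omega
  have hcopD : Nat.Coprime p D := by
    rw [hD]
    refine Nat.Coprime.mul_right (hnotdvd 4 (by norm_num) (by omega)) ?_
    refine Nat.Coprime.prod_right fun ℓ hℓ => ?_
    have h1 := (hprime ℓ hℓ).two_le
    have h2 := hWp ℓ hℓ
    exact Nat.Coprime.mul_right (hnotdvd ℓ (by omega) h2) (hnotdvd (ℓ - 1) (by omega) (by omega))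
  have hat : 0 < a.totient := Nat.totient_pos.2 (Nat.pos_of_ne_zero ha0)
  set h := a.totient.totient with hh
  have hh0 : 0 < h := Nat.totient_pos.2 hat
  have hha : h ≤ a := (Nat.totient_le _).trans (Nat.totient_le _)
  set g := D.totient * h with hg
  have hg0 : g ≠ 0 := Nat.mul_ne_zero hDt.ne' hh0.ne'
  have hone : ∀ k : ℕ, 1 ≤ p ^ k := fun k => Nat.one_le_pow _ _ hp.pos
  have hDg : D ∣ p ^ g - 1 := by
    have h1 := (Nat.ModEq.pow_totient hcopD).pow h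
    rw [one_pow, ← pow_mul] at h1
    exact (Nat.modEq_iff_dvd' (hone _)).1 h1.symm
  have hφ : a.totient ∣ p ^ g - 1 := by
    have hc : Nat.Coprime p a.totient := hnotdvd _ hat (lt_of_le_of_lt (Nat.totient_le a) hap)
    have h1 := (Nat.ModEq.pow_totient hc).pow D.totient
    rw [one_pow, ← pow_mul, mul_comm] at h1
    exact (Nat.modEq_iff_dvd' (hone _)).1 h1.symm
  have hexp : ∀ U : (ZMod a)ˣ, U ^ (p ^ g - 1) = 1 := by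
    intro U
    obtain ⟨w, hw⟩ := hφ
    rw [hw, pow_mul, ZMod.pow_totient, one_pow]
  have hΛ := spart_lt (n := n) (r := r) (Z := Z) (Q := Q) (T := T) hp haQ hWp hWZ hr hZ hn hT hT1 hD hDt hh0 hha
  have hprodW : ∏ ℓ ∈ W.primeFactors, ℓ ^ W.factorization ℓ = W := Nat.prod_factorization_pow_eq_self hW0
  have hℓ₀2 := (hprime ℓ₀ hℓ₀).two_le
  have hQ0 : 0 < Q := lt_of_lt_of_le (Nat.pos_of_ne_zero ha0) haQ
  refine general2 (K := Z) (Λ := T ^ r * (4 * Z ^ (2 * r) * Q) + 1) hp (by omega) hprime ⟨ℓ₀, hℓ₀⟩ (N₁ := a)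
    (g := g) ?_ ?_ hg0 hexp ?_ ?_ ?_ hΛ W.factorization ?_ hm hmp ?_ ψ ?_ hpar
  · intro hd
    have := Nat.le_of_dvd (Nat.pos_of_ne_zero ha0) hd
    omega
  · intro ℓ hℓ
    exact hcop.coprime_dvd_right (Nat.dvd_of_mem_primeFactors hℓ)
  · intro ℓ hℓ
    refine dvd_trans ?_ hDg
    rw [hD]
    exact (Finset.dvd_prod_of_mem (fun ℓ => ℓ * (ℓ - 1)) hℓ).mul_left 4
  · intro _
    refine dvd_trans ?_ hDg
    rw [hD]
    exact dvd_mul_right _ _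
  · intro ℓ hℓ
    have h1 := hWZ ℓ hℓ
    have h2 := Nat.totient_le (ℓ - 1)
    omega
  · rw [hprodW]
    set Λ := T ^ r * (4 * Z ^ (2 * r) * Q) + 1 with hΛdef
    have hA1 : 2 * a * p * Λ ^ 3 ≤ 2 * Q * Y * Λ ^ 3 := by
      refine Nat.mul_le_mul_right _ (Nat.mul_le_mul (Nat.mul_le_mul_left _ haQ) hpY)
    have hB1 : 1 ≤ 2 * Q * Y * Λ ^ 3 :=
      Nat.mul_pos (Nat.mul_pos (Nat.mul_pos (by norm_num) hQ0) (by omega)) (Nat.pow_pos (by omega))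
    calc (2 * a * p * Λ ^ 3) ^ ((Z + 1) ^ W.primeFactors.card - 1)
        ≤ (2 * Q * Y * Λ ^ 3) ^ ((Z + 1) ^ W.primeFactors.card - 1) := Nat.pow_le_pow_left hA1 _
      _ ≤ (2 * Q * Y * Λ ^ 3) ^ ((Z + 1) ^ r) := by
          refine Nat.pow_le_pow_right hB1 ?_
          exact (Nat.sub_le _ _).trans (Nat.pow_le_pow_right (by omega) hr)
      _ ≤ 2 ^ κ := hκ
      _ ≤ ℓ₀ ^ κ := Nat.pow_le_pow_left hℓ₀2 κ
      _ ≤ ℓ₀ ^ W.factorization ℓ₀ := Nat.pow_le_pow_right (by omega) hbig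
      _ ≤ W := Nat.le_of_dvd (Nat.pos_of_ne_zero hW0) (Nat.ordProj_dvd W ℓ₀)
  · rw [hprodW]
    exact hN
  · rw [hprodW]
    rw [DirichletCharacter.isPrimitive_def] at hprim
    rw [hprim, hN]
    exact dvd_mul_left _ _

end Pool.Agent.Helper91.GT
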