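import Pool.Graph.R_pool_sql_team_seeded_1acbe0a2.Y18.GX.Ord
import Pool.Graph.R_pool_sql_team_seeded_b677cdb8.E8helper53.GS.Lte

/-!
# The orders of the values of a primitive character, for all primes `ℓ`
-/

set_option autoImplicit false

namespace Pool.Agent.Helper91.GT

open Finset Pool.Agent.Y18.GX Pool.Agent.E8helper53.GS

/-- the exponent `2` for `ℓ = 2` and `ℓ - 1` for the odd primes -/
def ee (ℓ : ℕ) : ℕ := if ℓ = 2 then 2 else ℓ - 1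

lemma ee_pos {ℓ : ℕ} (hℓ : ℓ.Prime) : 0 < ee ℓ := by
  unfold ee
  split_ifs
  · norm_num
  · have := hℓ.two_le
    omega

lemma ee_le (ℓ : ℕ) : ee ℓ ≤ ℓ := by
  unfold ee
  split_ifs with h
  · omega
  · omega

/-- lifting the exponent -/
lemma lte2 {p ℓ : ℕ} (hp : p.Prime) (hℓ : ℓ.Prime) (hne : p ≠ ℓ) {h : ℕ} (hh : h ≠ 0) :
    (p ^ (ee ℓ * h) - 1).factorization ℓ = (p ^ ee ℓ - 1).factorization ℓ + h.factorization ℓ := by
  have hfact : Fact ℓ.Prime := ⟨hℓ⟩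
  have hcop : ¬ ℓ ∣ p := fun hd => hne ((Nat.prime_dvd_prime_iff_eq hℓ hp).1 hd).symm
  rw [Nat.factorization_def _ hℓ, Nat.factorization_def _ hℓ, Nat.factorization_def _ hℓ]
  by_cases h2 : ℓ = 2
  · subst h2
    have he : ee 2 = 2 := rfl
    rw [he]
    have hodd : 2 ∣ p - 1 := by
      have := hp.two_le
      omega
    have h1 := padicValNat.pow_two_sub_pow (x := p) (y := 1) hp.one_lt hodd hcop (n := 2 * h) (by omega)
      (even_two_mul h)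
    have h3 := padicValNat.pow_two_sub_pow (x := p) (y := 1) hp.one_lt hodd hcop (n := 2) (by omega)
      even_two
    rw [one_pow] at h1 h3
    have h4 : padicValNat 2 (2 * h) = 1 + padicValNat 2 h := by
      rw [padicValNat.mul (by norm_num) hh, padicValNat_self]
    have h5 : padicValNat 2 2 = 1 := padicValNat_self
    omega
  · have he : ee ℓ = ℓ - 1 := if_neg h2
    rw [he, pow_mul]
    have hodd : Odd ℓ := hℓ.odd_of_ne_two h2
    have hl1 : ℓ - 1 ≠ 0 := by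
      have := hℓ.two_le
      omega
    have hx : 1 < p ^ (ℓ - 1) := Nat.one_lt_pow hl1 hp.one_lt
    have hd : ℓ ∣ p ^ (ℓ - 1) - 1 := by
      have h3 : Nat.Coprime p ℓ := (Nat.coprime_primes hp hℓ).2 hne
      have h4 := Nat.ModEq.pow_totient h3
      rw [Nat.totient_prime hℓ] at h4
      exact (Nat.modEq_iff_dvd' hx.le).1 h4.symm
    have h1 := padicValNat.pow_sub_pow (p := ℓ) hodd (x := p ^ (ℓ - 1)) (y := 1) hx hd
      (fun h => hcop (hℓ.dvd_of_dvd_pow h)) hh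
    rw [one_pow] at h1
    exact h1

lemma lte3 {p ℓ n₀ h : ℕ} (hp : p.Prime) (hℓ : ℓ.Prime) (hne : p ≠ ℓ) (h1 : ¬ ℓ ^ (n₀ + 1) ∣ p ^ ee ℓ - 1)
    (hh : h ≠ 0) : (p ^ h - 1).factorization ℓ ≤ n₀ + h.factorization ℓ := by
  have he := ee_pos hℓ
  have hpos : ∀ k : ℕ, k ≠ 0 → p ^ k - 1 ≠ 0 := by
    intro k hk
    have : 1 < p ^ k := Nat.one_lt_pow hk hp.one_lt
    omega
  have h2 : p ^ h - 1 ∣ p ^ (ee ℓ * h) - 1 := by
    rw [mul_comm, pow_mul]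
    have := Nat.sub_dvd_pow_sub_pow (p ^ h) 1 (ee ℓ)
    rwa [one_pow] at this
  have h3 := (Nat.factorization_le_iff_dvd (hpos h hh) (hpos _ (Nat.mul_ne_zero he.ne' hh))).2 h2 ℓ
  rw [lte2 hp hℓ hne hh] at h3
  have h4 : (p ^ ee ℓ - 1).factorization ℓ ≤ n₀ := by
    by_contra hcon
    apply h1
    exact (hℓ.pow_dvd_iff_le_factorization (hpos _ he.ne')).2 (by omega)
  omega

/-- if the values of a primitive `ψ` modulo `ℓ ^ K` have order dividing `s`, then `ℓ ^ (K - 2)` divides `s` -/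
lemma pow_dvd_of_values2 {ℓ K : ℕ} (hℓp : ℓ.Prime) (hK : 3 ≤ K) (ψ : MulChar (ZMod (ℓ ^ K)) ℂ)
    (hprim : ψ ((1 + ℓ ^ (K - 1) : ℕ) : ZMod (ℓ ^ K)) ≠ 1) {s : ℕ} (hs : s ≠ 0)
    (h : ψ ((1 + ℓ ^ 2 : ℕ) : ZMod (ℓ ^ K)) ^ s = 1) : ℓ ^ (K - 2) ∣ s := by
  have hfact : Fact ℓ.Prime := ⟨hℓp⟩
  by_contra hcon
  obtain ⟨v, u, hu, huv⟩ := Nat.exists_eq_pow_mul_and_not_dvd hs ℓ hℓp.ne_one
  have hv : v < K - 2 := by
    by_contra hc
    exact hcon ((pow_dvd_pow ℓ (not_lt.1 hc)).trans ⟨u, huv⟩)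
  have huc : u.Coprime ℓ := (Nat.coprime_comm.1 ((Nat.Prime.coprime_iff_not_dvd hℓp).2 hu))
  have hgood : Good ℓ (1 + ℓ ^ 2) := by
    refine ⟨?_, ?_⟩
    · have : ℓ ^ 2 ≡ 0 [MOD ℓ] := (Nat.modEq_zero_iff_dvd).2 (dvd_pow_self ℓ (by norm_num))
      exact (Nat.ModEq.refl (n := ℓ) 1).add this
    · rintro rfl
      rfl
  obtain ⟨w, hw, hwc⟩ := lte_fac hℓp (u := 1 + ℓ ^ 2) (by omega) hgood (K - 3) (e := 1) (Nat.coprime_one_left ℓ)
  rw [mul_one, Nat.add_sub_cancel_left] at hw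
  have hy : (1 + ℓ ^ 2) ^ ℓ ^ (K - 3) = 1 + ℓ ^ (K - 1) * w := by
    have h0 : 1 ≤ (1 + ℓ ^ 2) ^ ℓ ^ (K - 3) := Nat.one_le_pow _ _ (by omega)
    have h1 : ℓ ^ 2 * (ℓ ^ (K - 3) * w) = ℓ ^ (K - 1) * w := by
      rw [← mul_assoc, ← pow_add]
      congr 2
      omega
    rw [h1] at hw
    omega
  -- `ψ (1 + ℓ ^ (K - 1)) ^ (w u) = 1`
  have h1 : ψ (((1 + ℓ ^ 2) ^ ℓ ^ (K - 3) : ℕ) : ZMod (ℓ ^ K)) ^ u = 1 := by
    have h2 : ℓ ^ (K - 3) * u = s * ℓ ^ (K - 3 - v) := by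
      rw [huv]
      have : ℓ ^ (K - 3) = ℓ ^ v * ℓ ^ (K - 3 - v) := by
        rw [← pow_add]
        congr 1
        omega
      rw [this]
      ring
    rw [Nat.cast_pow, map_pow, ← pow_mul, h2, pow_mul, h, one_pow]
  rw [hy, psi_one_add ψ (n := 1) (by omega) w, ← pow_mul] at h1
  have hτ : ψ ((1 + ℓ ^ (K - 1) : ℕ) : ZMod (ℓ ^ K)) ^ ℓ = 1 := by
    have := psi_M_pow ψ (n := 1) (by omega)
    rwa [pow_one] at this
  exact ne_one_of_coprime hprim hτ (Nat.Coprime.mul_left hwc huc) h1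

/-- the residue degree -/
lemma degree_large2 {p ℓ K n₁ N₁ f N : ℕ} (hp : p.Prime) (hℓp : ℓ.Prime) (hne : p ≠ ℓ)
    (hN : N = N₁ * ℓ ^ K) (hcop : N₁.Coprime (ℓ ^ K)) (hN0 : N₁ ≠ 0) (ψ : DirichletCharacter ℂ N)
    (hc : ℓ ^ K ∣ ψ.conductor) (h1 : ¬ ℓ ^ (n₁ + 1) ∣ p ^ ee ℓ - 1) (hf : 0 < f) (hd : orderOf ψ ∣ p ^ f - 1) :
    K - 2 - n₁ ≤ f.factorization ℓ := by
  rcases Nat.lt_or_ge K 3 with hK | hK
  · omega
  subst hN
  have hprim := snd_prim hcop hℓp (by omega) hN0 ψ hc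
  have hpos : p ^ f - 1 ≠ 0 := by
    have : 1 < p ^ f := Nat.one_lt_pow hf.ne' hp.one_lt
    omega
  have hdvd : ℓ ^ (K - 2) ∣ p ^ f - 1 := by
    refine pow_dvd_of_values2 hℓp hK (snd hcop ψ) hprim hpos ?_
    -- a value of `ψ`
    obtain ⟨a, ha1, ha2⟩ := Nat.chineseRemainder hcop 1 (1 + ℓ ^ 2)
    have e1 : ψ (a : ZMod (N₁ * ℓ ^ K)) = snd hcop ψ ((1 + ℓ ^ 2 : ℕ) : ZMod (ℓ ^ K)) := by
      rw [dec_nat hcop ψ a]
      have e2 : (a : ZMod N₁) = 1 := by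
        have := (ZMod.natCast_eq_natCast_iff _ _ _).2 ha1
        rw [this, Nat.cast_one]
      have e3 : (a : ZMod (ℓ ^ K)) = ((1 + ℓ ^ 2 : ℕ) : ZMod (ℓ ^ K)) :=
        (ZMod.natCast_eq_natCast_iff _ _ _).2 ha2
      rw [e2, e3, map_one, one_mul]
    rw [← e1]
    have hu : IsUnit (a : ZMod (N₁ * ℓ ^ K)) := by
      rw [ZMod.isUnit_iff_coprime]
      refine Nat.Coprime.mul_right ?_ ?_
      · have := ha1.gcd_eq
        rw [Nat.gcd_one_left] at this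
        exact this
      · have := ha2.gcd_eq
        have h3 : Nat.Coprime (1 + ℓ ^ 2) (ℓ ^ K) := by
          refine Nat.Coprime.pow_right _ ?_
          rw [Nat.coprime_comm, Nat.Prime.coprime_iff_not_dvd hℓp]
          intro h4
          have h5 := (Nat.dvd_add_left (dvd_pow_self ℓ (two_ne_zero))).1 h4
          exact hℓp.one_lt.ne' (Nat.dvd_one.1 h5)
        exact this.trans h3
    obtain ⟨U, hU⟩ := hu
    obtain ⟨w, hw⟩ := hd
    rw [← hU, ← MulChar.pow_apply_coe, hw, pow_mul, pow_orderOf_eq_one, one_pow, MulChar.one_apply_coe]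
  have h2 := (hℓp.pow_dvd_iff_le_factorization hpos).1 hdvd
  have h3 := lte3 hp hℓp hne h1 hf.ne'
  omega

end Pool.Agent.Helper91.GT
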