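import Pool.Agent.Helper91.GT.Fin2

/-!
# The choice of the parameters
-/

set_option autoImplicit false

namespace Pool.Agent.Helper91.GT

open Finset Pool.Agent.Y18.GX Pool.Agent.E8helper53.GS

lemma kappa_bound {t Q Y T Z r : ℕ} (ht : 1 ≤ t) (hQ : Q ≤ 2 ^ t) (hY : Y ≤ 2 ^ t) (hT : T ≤ 2 ^ t)
    (hZ : Z ≤ 2 ^ t) :
    (2 * Q * Y * (T ^ r * (4 * Z ^ (2 * r) * Q) + 1) ^ 3) ^ ((Z + 1) ^ r) ≤ 2 ^ (t * (9 * r + 15) * (Z + 1) ^ r) := by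
  have h2 : 2 ≤ 2 ^ t := by
    calc 2 = 2 ^ 1 := (pow_one 2).symm
      _ ≤ 2 ^ t := Nat.pow_le_pow_right (by norm_num) ht
  have h1 : T ^ r * (4 * Z ^ (2 * r) * Q) ≤ 2 ^ (t * (3 * r + 3)) := by
    calc T ^ r * (4 * Z ^ (2 * r) * Q) ≤ (2 ^ t) ^ r * ((2 ^ t) ^ 2 * (2 ^ t) ^ (2 * r) * 2 ^ t) := by
          refine Nat.mul_le_mul (Nat.pow_le_pow_left hT r) (Nat.mul_le_mul (Nat.mul_le_mul ?_ ?_) hQ)
          · calc 4 = 2 ^ 2 := by norm_num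
              _ ≤ (2 ^ t) ^ 2 := Nat.pow_le_pow_left h2 2
          · exact Nat.pow_le_pow_left hZ _
      _ = 2 ^ (t * (3 * r + 3)) := by
          rw [← pow_mul, ← pow_mul, ← pow_mul, ← pow_add, ← pow_add, ← pow_add]
          congr 1
          ring
  have h3 : T ^ r * (4 * Z ^ (2 * r) * Q) + 1 ≤ 2 ^ (t * (3 * r + 4)) := by
    have h4 : 1 ≤ 2 ^ (t * (3 * r + 3)) := Nat.one_le_pow _ _ (by norm_num)
    calc T ^ r * (4 * Z ^ (2 * r) * Q) + 1 ≤ 2 ^ (t * (3 * r + 3)) + 2 ^ (t * (3 * r + 3)) := Nat.add_le_add h1 h4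
      _ = 2 * 2 ^ (t * (3 * r + 3)) := by ring
      _ ≤ 2 ^ t * 2 ^ (t * (3 * r + 3)) := Nat.mul_le_mul_right _ h2
      _ = 2 ^ (t * (3 * r + 4)) := by
          rw [← pow_add]
          congr 1
          ring
  have h5 : 2 * Q * Y * (T ^ r * (4 * Z ^ (2 * r) * Q) + 1) ^ 3 ≤ 2 ^ (t * (9 * r + 15)) := by
    calc 2 * Q * Y * (T ^ r * (4 * Z ^ (2 * r) * Q) + 1) ^ 3
        ≤ 2 ^ t * 2 ^ t * 2 ^ t * (2 ^ (t * (3 * r + 4))) ^ 3 :=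
          Nat.mul_le_mul (Nat.mul_le_mul (Nat.mul_le_mul h2 hQ) hY) (Nat.pow_le_pow_left h3 3)
      _ = 2 ^ (t * (9 * r + 15)) := by
          rw [← pow_mul, ← pow_add, ← pow_add, ← pow_add]
          congr 1
          ring
  calc (2 * Q * Y * (T ^ r * (4 * Z ^ (2 * r) * Q) + 1) ^ 3) ^ ((Z + 1) ^ r)
      ≤ (2 ^ (t * (9 * r + 15))) ^ ((Z + 1) ^ r) := Nat.pow_le_pow_left h5 _
    _ = 2 ^ (t * (9 * r + 15) * (Z + 1) ^ r) := by rw [← pow_mul]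

lemma kappa_le {t Z r : ℕ} (ht : 1 ≤ t) (hZ : 1 ≤ Z) :
    t * (9 * r + 15) * (Z + 1) ^ r + 1 ≤ t * ((9 * r + 16) * 2 ^ r) * Z ^ r := by
  have h1 : (Z + 1) ^ r ≤ 2 ^ r * Z ^ r := by
    rw [← mul_pow]
    exact Nat.pow_le_pow_left (by omega) r
  have h2 : 1 ≤ t * (Z + 1) ^ r := Nat.mul_pos (by omega) (Nat.pow_pos (by omega))
  calc t * (9 * r + 15) * (Z + 1) ^ r + 1 ≤ t * (9 * r + 15) * (Z + 1) ^ r + t * (Z + 1) ^ r :=
        Nat.add_le_add_left h2 _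
    _ = t * (9 * r + 16) * (Z + 1) ^ r := by ring
    _ ≤ t * (9 * r + 16) * (2 ^ r * Z ^ r) := Nat.mul_le_mul_left _ h1
    _ = t * ((9 * r + 16) * 2 ^ r) * Z ^ r := by ring

/-- the logarithms -/
lemma log_pow_le {η : ℝ} (hη : 0 < η) (k : ℕ) (hk : 1 ≤ k) : ∃ C : ℝ, 0 ≤ C ∧ ∀ X : ℝ, 2 ≤ X →
    ((Nat.log 2 ⌊X⌋₊ + 1 : ℕ) : ℝ) ^ k ≤ C * X ^ η := by
  have hk0 : (0 : ℝ) < k := by exact_mod_cast hk
  obtain ⟨ε, hε⟩ : ∃ ε, ε = η / k := ⟨_, rfl⟩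
  have hε0 : 0 < ε := by
    rw [hε]
    positivity
  refine ⟨(3 / ε) ^ k, by positivity, fun X hX => ?_⟩
  have hX0 : (0 : ℝ) < X := by linarith
  set Y := ⌊X⌋₊ with hY
  have hYX : (Y : ℝ) ≤ X := Nat.floor_le hX0.le
  have hY2 : 2 ≤ Y := Nat.le_floor (by exact_mod_cast hX)
  have hlog2 : (2 : ℝ) / 3 ≤ Real.log 2 := by
    have := Real.log_two_gt_d9
    linarith
  have hlogX : (2 : ℝ) / 3 ≤ Real.log X := hlog2.trans (Real.log_le_log (by norm_num) hX)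
  have e1 : (2 : ℝ) ^ (Nat.log 2 Y) ≤ X := by
    have e2 : ((2 ^ (Nat.log 2 Y) : ℕ) : ℝ) ≤ Y := by exact_mod_cast Nat.pow_log_le_self 2 (by omega)
    push_cast at e2
    exact e2.trans hYX
  have e2 := Real.log_le_log (by positivity) e1
  rw [Real.log_pow] at e2
  have e4 : ((Nat.log 2 Y : ℕ) : ℝ) * (2 / 3) ≤ Real.log X := by
    calc ((Nat.log 2 Y : ℕ) : ℝ) * (2 / 3) ≤ ((Nat.log 2 Y : ℕ) : ℝ) * Real.log 2 :=
          mul_le_mul_of_nonneg_left hlog2 (by positivity)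
      _ ≤ Real.log X := e2
  have e5 : ((Nat.log 2 Y + 1 : ℕ) : ℝ) ≤ 3 * Real.log X := by
    push_cast
    linarith
  have e6 : Real.log X ≤ X ^ ε / ε := Real.log_le_rpow_div hX0.le hε0
  calc ((Nat.log 2 Y + 1 : ℕ) : ℝ) ^ k ≤ (3 * (X ^ ε / ε)) ^ k :=
        pow_le_pow_left₀ (by positivity) (e5.trans (by linarith)) k
    _ = (3 / ε) ^ k * (X ^ ε) ^ k := by
        rw [← mul_pow]
        congr 1
        ring
    _ = (3 / ε) ^ k * X ^ η := by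
        rw [← Real.rpow_natCast (X ^ ε), ← Real.rpow_mul hX0.le, hε, div_mul_cancel₀ _ hk0.ne']

lemma sum_div_le' (Q : ℕ) (hQ : 1 ≤ Q) {X : ℝ} (hQX : (Q : ℝ) ≤ X) :
    ((∑ a ∈ Icc 1 Q, Q / a : ℕ) : ℝ) ≤ Q * (1 + Real.log X) := by
  have h1 : ((∑ a ∈ Icc 1 Q, Q / a : ℕ) : ℝ) ≤ Q * ((harmonic Q : ℚ) : ℝ) := by
    rw [harmonic_eq_sum_Icc]
    push_cast
    rw [mul_sum]
    refine sum_le_sum fun a _ => ?_
    calc ((Q / a : ℕ) : ℝ) ≤ (Q : ℝ) / (a : ℝ) := Nat.cast_div_le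
      _ = Q * (a : ℝ)⁻¹ := div_eq_mul_inv _ _
  refine h1.trans (mul_le_mul_of_nonneg_left ?_ (by positivity))
  refine (harmonic_le_one_add_log Q).trans ?_
  have : Real.log Q ≤ Real.log X := Real.log_le_log (by exact_mod_cast hQ) hQX
  linarith

lemma card_B2_real {r : ℕ} {c c' η X : ℝ} (hX : 2 ≤ X) {Q Z E t : ℕ}
    {n : ℕ → ℕ} (hQ1 : 1 ≤ Q) (hZ1 : 1 ≤ Z) (hE1 : 1 ≤ E) (ht : 1 ≤ t) (hQX : (Q : ℝ) ≤ X ^ c)
    (hZX : (Z : ℝ) ≤ X ^ c') (hEX : (E : ℝ) ≤ X ^ η) (hlog : Real.log X ≤ t) (hQX' : (Q : ℝ) ≤ X)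
    (hZt : Z ≤ 2 ^ t) (hQt : Q ≤ 2 ^ t) (hT : ∀ ℓ, ℓ.Prime → ℓ ≤ Z → ℓ ^ n ℓ ≤ E * Z) :
    ((B2 n Z (t * (9 * r + 15) * (Z + 1) ^ r) r Q).card : ℝ) ≤
      (10 * (r + 1) * ((9 * r + 16) * 2 ^ r) ^ (r + 1)) * (t : ℝ) ^ (r + 3) *
        X ^ (2 * c + ((r : ℝ) ^ 2 + 5 * r) * c' + r * η) := by
  have hX0 : (0 : ℝ) < X := by linarith
  have ht1 : (1 : ℝ) ≤ t := by exact_mod_cast ht
  set κ := t * (9 * r + 15) * (Z + 1) ^ r with hκ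
  obtain ⟨K, hK⟩ : ∃ K : ℝ, K = (9 * r + 16) * 2 ^ r := ⟨_, rfl⟩
  have hK0 : 0 ≤ K := by
    rw [hK]
    positivity
  have hκ1 : (κ : ℝ) + 1 ≤ t * K * Z ^ r := by
    have h := kappa_le (r := r) ht hZ1
    rw [← hκ] at h
    have h2 : ((κ + 1 : ℕ) : ℝ) ≤ ((t * ((9 * r + 16) * 2 ^ r) * Z ^ r : ℕ) : ℝ) := by exact_mod_cast h
    push_cast at h2
    rw [hK]
    exact h2
  have hκr : (κ : ℝ) * r + 1 ≤ (r + 1) * (t * K * Z ^ r) := by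
    have h0 : (0 : ℝ) ≤ κ := by positivity
    have h1 : (0 : ℝ) ≤ r := by positivity
    calc (κ : ℝ) * r + 1 ≤ (r + 1) * (κ + 1) := by nlinarith
      _ ≤ (r + 1) * (t * K * Z ^ r) := mul_le_mul_of_nonneg_left hκ1 (by positivity)
  have hmain := card_B2 (n := n) (κ := κ) (r := r) (Q := Q) (T := E * Z) hZ1 (Nat.mul_pos hE1 hZ1) hT hZt hQt
  have h1 : ((B2 n Z κ r Q).card : ℝ) ≤ ((∑ a ∈ Icc 1 Q, Q / a : ℕ) : ℝ) * (((Z : ℝ) * (κ + 1)) ^ r *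
      (((E : ℝ) * Z * Z ^ 2) ^ r * (((t : ℝ) * (κ * r + 1)) * (5 * Q)))) := by exact_mod_cast hmain
  have hS : ((∑ a ∈ Icc 1 Q, Q / a : ℕ) : ℝ) ≤ 2 * t * Q := by
    refine (sum_div_le' Q hQ1 hQX').trans ?_
    calc (Q : ℝ) * (1 + Real.log X) ≤ Q * (t + t) :=
          mul_le_mul_of_nonneg_left (by linarith) (by positivity)
      _ = 2 * t * Q := by ring
  have hZ0 : (0 : ℝ) ≤ Z := by positivity
  have hEZ : ((E : ℝ) * Z * Z ^ 2) ^ r ≤ (X ^ η * Z ^ 3) ^ r := by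
    refine pow_le_pow_left₀ (by positivity) ?_ r
    calc (E : ℝ) * Z * Z ^ 2 = E * Z ^ 3 := by ring
      _ ≤ X ^ η * Z ^ 3 := mul_le_mul_of_nonneg_right hEX (by positivity)
  have h2 : ((B2 n Z κ r Q).card : ℝ) ≤ (2 * t * Q) * (((Z : ℝ) * (t * K * Z ^ r)) ^ r *
      ((X ^ η * Z ^ 3) ^ r * (((t : ℝ) * ((r + 1) * (t * K * Z ^ r))) * (5 * Q)))) := by
    refine h1.trans ?_
    refine mul_le_mul hS ?_ (by positivity) (by positivity)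
    refine mul_le_mul ?_ ?_ (by positivity) (by positivity)
    · exact pow_le_pow_left₀ (by positivity) (mul_le_mul_of_nonneg_left hκ1 hZ0) r
    · refine mul_le_mul hEZ ?_ (by positivity) (by positivity)
      refine mul_le_mul_of_nonneg_right ?_ (by positivity)
      exact mul_le_mul_of_nonneg_left hκr (by positivity)
  have h3 : (2 * t * Q) * (((Z : ℝ) * (t * K * Z ^ r)) ^ r *
      ((X ^ η * Z ^ 3) ^ r * (((t : ℝ) * ((r + 1) * (t * K * Z ^ r))) * (5 * Q)))) =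
      (10 * (r + 1) * K ^ (r + 1)) * (t : ℝ) ^ (r + 3) * ((Q : ℝ) ^ 2 * (Z : ℝ) ^ (r ^ 2 + 5 * r) * (X ^ η) ^ r) := by
    rw [mul_pow, mul_pow, mul_pow, mul_pow]
    ring
  have h4 : (Q : ℝ) ^ 2 * (Z : ℝ) ^ (r ^ 2 + 5 * r) * (X ^ η) ^ r ≤
      X ^ (2 * c + ((r : ℝ) ^ 2 + 5 * r) * c' + r * η) := by
    calc (Q : ℝ) ^ 2 * (Z : ℝ) ^ (r ^ 2 + 5 * r) * (X ^ η) ^ r
        ≤ (X ^ c) ^ 2 * (X ^ c') ^ (r ^ 2 + 5 * r) * (X ^ η) ^ r := by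
          refine mul_le_mul_of_nonneg_right ?_ (by positivity)
          exact mul_le_mul (pow_le_pow_left₀ (by positivity) hQX 2) (pow_le_pow_left₀ hZ0 hZX _) (by positivity)
            (by positivity)
      _ = X ^ (2 * c + ((r : ℝ) ^ 2 + 5 * r) * c' + r * η) := by
          rw [← Real.rpow_natCast (X ^ c), ← Real.rpow_natCast (X ^ c'), ← Real.rpow_natCast (X ^ η),
            ← Real.rpow_mul hX0.le, ← Real.rpow_mul hX0.le, ← Real.rpow_mul hX0.le, ← Real.rpow_add hX0,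
            ← Real.rpow_add hX0]
          congr 1
          push_cast
          ring
  rw [h3] at h2
  rw [← hK]
  exact h2.trans (mul_le_mul_of_nonneg_left h4 (by positivity))

/-- all primes for which the part of `p ^ ee ℓ - 1` at some small `ℓ` is large -/
def B1all (n : ℕ → ℕ) (Z Y : ℕ) : Finset ℕ := ((Icc 1 Z).filter Nat.Prime).biUnion fun ℓ => B1 ℓ (n ℓ) Y

lemma card_B1all_real {c' η X : ℝ} (hX : 2 ≤ X) {Z Y : ℕ} {n : ℕ → ℕ}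
    (hZX : (Z : ℝ) ≤ X ^ c') (hYX : (Y : ℝ) ≤ X) (hn : ∀ ℓ, ℓ.Prime → ℓ ≤ Z → X ^ η ≤ (ℓ : ℝ) ^ n ℓ) :
    ((B1all n Z Y).card : ℝ) ≤ 2 * X ^ (1 - (η - c')) + X ^ (2 * c') := by
  have hX0 : (0 : ℝ) < X := by linarith
  have hZ0 : (0 : ℝ) ≤ Z := by positivity
  have h1 : ((B1all n Z Y).card : ℝ) ≤ ∑ ℓ ∈ (Icc 1 Z).filter Nat.Prime, (2 * X ^ (1 - η) + (Z : ℝ)) := by
    calc ((B1all n Z Y).card : ℝ) ≤ ((∑ ℓ ∈ (Icc 1 Z).filter Nat.Prime, (B1 ℓ (n ℓ) Y).card : ℕ) : ℝ) := by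
          exact_mod_cast card_biUnion_le
      _ = ∑ ℓ ∈ (Icc 1 Z).filter Nat.Prime, ((B1 ℓ (n ℓ) Y).card : ℝ) := by push_cast; rfl
      _ ≤ _ := by
          refine sum_le_sum fun ℓ hℓ => ?_
          rw [mem_filter, mem_Icc] at hℓ
          obtain ⟨⟨-, hℓZ⟩, hℓp⟩ := hℓ
          have h2 := card_B1 hℓp (n ℓ) Y
          have h3 : ((B1 ℓ (n ℓ) Y).card : ℝ) ≤ 2 * ((Y / ℓ ^ n ℓ : ℕ) : ℝ) + ℓ := by exact_mod_cast h2
          have h4 : ((Y / ℓ ^ n ℓ : ℕ) : ℝ) ≤ X ^ (1 - η) := by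
            calc ((Y / ℓ ^ n ℓ : ℕ) : ℝ) ≤ (Y : ℝ) / ((ℓ ^ n ℓ : ℕ) : ℝ) := Nat.cast_div_le
              _ ≤ X / X ^ η := by
                  refine div_le_div₀ hX0.le hYX (by positivity) ?_
                  push_cast
                  exact hn ℓ hℓp hℓZ
              _ = X ^ (1 - η) := by
                  rw [Real.rpow_sub hX0, Real.rpow_one]
          have h5 : (ℓ : ℝ) ≤ Z := by exact_mod_cast hℓZ
          linarith
  have h2 : (((Icc 1 Z).filter Nat.Prime).card : ℝ) ≤ Z := by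
    have h3 : ((Icc 1 Z).filter Nat.Prime).card ≤ Z := by
      refine (card_filter_le _ _).trans ?_
      rw [Nat.card_Icc, Nat.add_sub_cancel]
    exact_mod_cast h3
  rw [sum_const, nsmul_eq_mul] at h1
  calc ((B1all n Z Y).card : ℝ) ≤ (((Icc 1 Z).filter Nat.Prime).card : ℝ) * (2 * X ^ (1 - η) + (Z : ℝ)) := h1
    _ ≤ Z * (2 * X ^ (1 - η) + (Z : ℝ)) := mul_le_mul_of_nonneg_right h2 (by positivity)
    _ ≤ X ^ c' * (2 * X ^ (1 - η) + X ^ c') := by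
        refine mul_le_mul hZX (by linarith) (by positivity) (by positivity)
    _ = 2 * (X ^ c' * X ^ (1 - η)) + X ^ c' * X ^ c' := by ring
    _ = 2 * X ^ (1 - (η - c')) + X ^ (2 * c') := by
        rw [← Real.rpow_add hX0, ← Real.rpow_add hX0]
        congr 2
        · congr 1
          ring
        · ring

lemma card_A0' {M s : ℕ} (hs : M + 1 ≤ 2 ^ s) :
    ((Icc 2 M).biUnion bad0).card ≤ 4 * s * M ^ 2 := by
  calc ((Icc 2 M).biUnion bad0).card ≤ ∑ m ∈ Icc 2 M, (bad0 m).card := card_biUnion_le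
    _ ≤ ∑ m ∈ Icc 2 M, 4 * s * M := by
        refine sum_le_sum fun m hm => ?_
        rw [mem_Icc] at hm
        refine (card_bad0 (s := s) (by omega) (by omega)).trans ?_
        calc s * (2 * (m + 1)) ≤ s * (2 * (2 * M)) := Nat.mul_le_mul_left _ (by omega)
          _ = 4 * s * M := by ring
    _ = (M + 1 - 2) * (4 * s * M) := by
        rw [sum_const, Nat.card_Icc, smul_eq_mul]
    _ ≤ M * (4 * s * M) := Nat.mul_le_mul_right _ (by omega)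
    _ = 4 * s * M ^ 2 := by ring

/-- the choice of the parameters -/
theorem params (r : ℕ) {c c' : ℝ} (hc : 0 ≤ c) (hc' : 0 ≤ c') (h : 2 * c + ((r : ℝ) ^ 2 + 6 * r + 2) * c' < 1) :
    ∃ C : ℝ, ∀ X : ℝ, 2 ≤ X → ∃ (n : ℕ → ℕ) (T κ : ℕ), 1 ≤ T ∧
      (∀ ℓ, ℓ.Prime → ℓ ≤ ⌊X ^ c'⌋₊ → ℓ ^ n ℓ ≤ T) ∧
      (2 * ⌊X ^ c⌋₊ * ⌊X⌋₊ * (T ^ r * (4 * ⌊X ^ c'⌋₊ ^ (2 * r) * ⌊X ^ c⌋₊) + 1) ^ 3) ^ ((⌊X ^ c'⌋₊ + 1) ^ r) ≤ 2 ^ κ ∧
      ((B1all n ⌊X ^ c'⌋₊ ⌊X⌋₊).card : ℝ) + ((B2 n ⌊X ^ c'⌋₊ κ r ⌊X ^ c⌋₊).card : ℝ) +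
        ((((Icc 2 ⌊X ^ c⌋₊).biUnion bad0).card : ℕ) : ℝ) ≤
        C * X ^ (1 - (1 - 2 * c - ((r : ℝ) ^ 2 + 6 * r + 2) * c') / (r + 2)) := by
  have hr0 : (0 : ℝ) ≤ r := by positivity
  obtain ⟨τ, hτ⟩ : ∃ τ, τ = 1 - 2 * c - ((r : ℝ) ^ 2 + 5 * r) * c' := ⟨_, rfl⟩
  obtain ⟨η, hη⟩ : ∃ η, η = τ / (r + 2) := ⟨_, rfl⟩
  have hτη : τ = (r + 2) * η := by
    rw [hη]
    field_simp
  have hδ : (1 - 2 * c - ((r : ℝ) ^ 2 + 6 * r + 2) * c') / (r + 2) = η - c' := by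
    rw [div_eq_iff (by positivity)]
    have : (η - c') * (r + 2) = τ - (r + 2) * c' := by
      rw [hτη]
      ring
    rw [this, hτ]
    ring
  have hδ0 : 0 < η - c' := by
    rw [← hδ]
    exact div_pos (by linarith) (by positivity)
  have hη0 : 0 < η := by linarith
  have hη2 : η ≤ 1 / 2 := by
    have h1 : 2 * η ≤ (r + 2) * η := mul_le_mul_of_nonneg_right (by linarith) hη0.le
    have h2 : 0 ≤ ((r : ℝ) ^ 2 + 5 * r) * c' := by positivity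
    linarith
  obtain ⟨C₁, hC₁, hC⟩ := log_pow_le hη0 (r + 3) (by omega)
  refine ⟨3 + (10 * (r + 1) * ((9 * r + 16) * 2 ^ r) ^ (r + 1)) * C₁ + 8 * C₁, fun X hX => ?_⟩
  have hX0 : (0 : ℝ) < X := by linarith
  have hX1 : (1 : ℝ) ≤ X := by linarith
  set Y := ⌊X⌋₊ with hY
  have hYX : (Y : ℝ) ≤ X := Nat.floor_le hX0.le
  have hY2 : 2 ≤ Y := Nat.le_floor (by exact_mod_cast hX)
  set Q := ⌊X ^ c⌋₊ with hQ
  have hQX : (Q : ℝ) ≤ X ^ c := Nat.floor_le (by positivity)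
  have hQ1 : 1 ≤ Q := Nat.le_floor (by exact_mod_cast Real.one_le_rpow hX1 hc)
  set Z := ⌊X ^ c'⌋₊ with hZ
  have hZX : (Z : ℝ) ≤ X ^ c' := Nat.floor_le (by positivity)
  have hZ1 : 1 ≤ Z := Nat.le_floor (by exact_mod_cast Real.one_le_rpow hX1 hc')
  set E := ⌊X ^ η⌋₊ with hE
  have hEX : (E : ℝ) ≤ X ^ η := Nat.floor_le (by positivity)
  have hE1 : 1 ≤ E := Nat.le_floor (by exact_mod_cast Real.one_le_rpow hX1 hη0.le)
  set t := Nat.log 2 Y + 1 with htdef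
  have ht : 1 ≤ t := by omega
  have htX : X < (2 : ℝ) ^ t := by
    have h2 : Y < 2 ^ (Nat.log 2 Y + 1) := Nat.lt_pow_succ_log_self (by norm_num) _
    have h3 : X < ((2 ^ (Nat.log 2 Y + 1) : ℕ) : ℝ) := (Nat.floor_lt hX0.le).1 h2
    push_cast at h3
    exact h3
  have hc1 : c ≤ 1 / 2 := by
    have : 0 ≤ ((r : ℝ) ^ 2 + 6 * r + 2) * c' := by positivity
    linarith
  have hc'1 : c' ≤ 1 / 2 := by
    have h1 : 0 ≤ ((r : ℝ) ^ 2 + 6 * r) * c' := by positivity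
    have h2 : ((r : ℝ) ^ 2 + 6 * r + 2) * c' = ((r : ℝ) ^ 2 + 6 * r) * c' + 2 * c' := by ring
    linarith
  have hpow : ∀ a : ℝ, a ≤ 1 → X ^ a ≤ X := fun a ha => by
    calc X ^ a ≤ X ^ (1 : ℝ) := Real.rpow_le_rpow_of_exponent_le hX1 ha
      _ = X := Real.rpow_one X
  have hQX' : (Q : ℝ) ≤ X := hQX.trans (hpow c (by linarith))
  have hZX' : (Z : ℝ) ≤ X := hZX.trans (hpow c' (by linarith))
  have hle : ∀ k : ℕ, (k : ℝ) ≤ X → k ≤ 2 ^ t := fun k hk => by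
    have : (k : ℝ) ≤ ((2 ^ t : ℕ) : ℝ) := by
      push_cast
      linarith
    exact_mod_cast this
  have hEZX : ((E * Z : ℕ) : ℝ) ≤ X := by
    push_cast
    calc (E : ℝ) * Z ≤ X ^ η * X ^ c' := mul_le_mul hEX hZX (by positivity) (by positivity)
      _ = X ^ (η + c') := by rw [← Real.rpow_add hX0]
      _ ≤ X := hpow _ (by linarith)
  have hlogX : Real.log X ≤ t := by
    have h1 := Real.log_le_log hX0 htX.le
    rw [Real.log_pow] at h1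
    have h2 : Real.log 2 ≤ 1 := by
      have := Real.log_two_lt_d9
      linarith
    calc Real.log X ≤ t * Real.log 2 := h1
      _ ≤ t * 1 := mul_le_mul_of_nonneg_left h2 (by positivity)
      _ = t := mul_one _
  have ht1 : (1 : ℝ) ≤ t := by exact_mod_cast ht
  have hT : ∀ ℓ, ℓ.Prime → ℓ ≤ Z → ℓ ^ (Nat.log ℓ E + 1) ≤ E * Z := fun ℓ hℓ hℓZ => by
    rw [pow_succ]
    exact Nat.mul_le_mul (Nat.pow_log_le_self ℓ (by omega)) hℓZ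
  have hn : ∀ ℓ, ℓ.Prime → ℓ ≤ Z → X ^ η ≤ (ℓ : ℝ) ^ (Nat.log ℓ E + 1) := fun ℓ hℓ _ => by
    have h2 : E < ℓ ^ (Nat.log ℓ E + 1) := Nat.lt_pow_succ_log_self hℓ.one_lt _
    have h3 : X ^ η < ((ℓ ^ (Nat.log ℓ E + 1) : ℕ) : ℝ) := (Nat.floor_lt (by positivity)).1 h2
    push_cast at h3
    exact h3.le
  refine ⟨fun ℓ => Nat.log ℓ E + 1, E * Z, t * (9 * r + 15) * (Z + 1) ^ r, Nat.mul_pos hE1 hZ1, hT,
    kappa_bound ht (hle Q hQX') (hle Y hYX) (hle _ hEZX) (hle Z hZX'), ?_⟩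
  rw [hδ]
  have r1 := card_B1all_real (η := η) (Z := Z) (Y := Y) (n := fun ℓ => Nat.log ℓ E + 1) hX hZX hYX hn
  have r2 := card_B2_real (r := r) (c := c) (c' := c') (η := η) (n := fun ℓ => Nat.log ℓ E + 1) hX hQ1 hZ1 hE1 ht
    hQX hZX hEX hlogX hQX' (hle Z hZX') (hle Q hQX') hT
  have r3 : ((((Icc 2 Q).biUnion bad0).card : ℕ) : ℝ) ≤ 4 * (t + 1) * (Q : ℝ) ^ 2 := by
    have h1 := card_A0' (M := Q) (s := t + 1) (by
      have h2 := hle Q hQX'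
      have h3 : 1 ≤ 2 ^ t := Nat.one_le_pow _ _ (by norm_num)
      rw [pow_succ]
      omega)
    exact_mod_cast h1
  obtain ⟨W, hW⟩ : ∃ W, W = X ^ (1 - (η - c')) := ⟨_, rfl⟩
  have hW0 : 0 < W := by
    rw [hW]
    positivity
  have hexp : ∀ a : ℝ, a ≤ 1 - (η - c') → X ^ a ≤ W := fun a ha => by
    rw [hW]
    exact Real.rpow_le_rpow_of_exponent_le hX1 ha
  have s1 : ((B1all (fun ℓ => Nat.log ℓ E + 1) Z Y).card : ℝ) ≤ 3 * W := by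
    have := hexp (2 * c') (by linarith)
    rw [← hW] at r1
    linarith
  have hlogs : (t : ℝ) ^ (r + 3) * X ^ (1 - 2 * η) ≤ C₁ * W := by
    have h1 : (t : ℝ) ^ (r + 3) ≤ C₁ * X ^ η := by
      have := hC X hX
      rw [htdef, hY]
      exact this
    calc (t : ℝ) ^ (r + 3) * X ^ (1 - 2 * η) ≤ (C₁ * X ^ η) * X ^ (1 - 2 * η) :=
          mul_le_mul_of_nonneg_right h1 (by positivity)
      _ = C₁ * (X ^ η * X ^ (1 - 2 * η)) := by ring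
      _ = C₁ * X ^ (1 - η) := by
          rw [← Real.rpow_add hX0]
          congr 2
          ring
      _ ≤ C₁ * W := mul_le_mul_of_nonneg_left (hexp _ (by linarith)) hC₁
  have s2 : ((B2 (fun ℓ => Nat.log ℓ E + 1) Z (t * (9 * r + 15) * (Z + 1) ^ r) r Q).card : ℝ) ≤
      (10 * (r + 1) * ((9 * r + 16) * 2 ^ r) ^ (r + 1)) * C₁ * W := by
    have h1 : 2 * c + ((r : ℝ) ^ 2 + 5 * r) * c' + r * η = 1 - 2 * η := by
      have : 2 * c + ((r : ℝ) ^ 2 + 5 * r) * c' = 1 - τ := by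
        rw [hτ]
        ring
      rw [this, hτη]
      ring
    rw [h1] at r2
    refine r2.trans ?_
    obtain ⟨G, hG⟩ : ∃ G : ℝ, G = 10 * (r + 1) * ((9 * r + 16) * 2 ^ r) ^ (r + 1) := ⟨_, rfl⟩
    have hG0 : 0 ≤ G := by
      rw [hG]
      positivity
    rw [← hG]
    calc G * (t : ℝ) ^ (r + 3) * X ^ (1 - 2 * η) = G * ((t : ℝ) ^ (r + 3) * X ^ (1 - 2 * η)) := by ring
      _ ≤ G * (C₁ * W) := mul_le_mul_of_nonneg_left hlogs hG0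
      _ = G * C₁ * W := by ring
  have s3 : ((((Icc 2 Q).biUnion bad0).card : ℕ) : ℝ) ≤ 8 * C₁ * W := by
    refine r3.trans ?_
    have h1 : (Q : ℝ) ^ 2 ≤ X ^ (1 - 2 * η) := by
      calc (Q : ℝ) ^ 2 ≤ (X ^ c) ^ 2 := pow_le_pow_left₀ (by positivity) hQX 2
        _ = X ^ (2 * c) := by
            rw [← Real.rpow_natCast, ← Real.rpow_mul hX0.le]
            congr 1
            push_cast
            ring
        _ ≤ X ^ (1 - 2 * η) := by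
            refine Real.rpow_le_rpow_of_exponent_le hX1 ?_
            have h2 : 0 ≤ ((r : ℝ) ^ 2 + 5 * r) * c' := by positivity
            have h3 : 2 * η ≤ (r + 2) * η := mul_le_mul_of_nonneg_right (by linarith) hη0.le
            linarith
    have h2 : (t : ℝ) ≤ (t : ℝ) ^ (r + 3) := le_self_pow₀ ht1 (by omega)
    calc 4 * ((t : ℝ) + 1) * (Q : ℝ) ^ 2 ≤ (8 * (t : ℝ) ^ (r + 3)) * X ^ (1 - 2 * η) :=
          mul_le_mul (by linarith) h1 (by positivity) (by positivity)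
      _ = 8 * ((t : ℝ) ^ (r + 3) * X ^ (1 - 2 * η)) := by ring
      _ ≤ 8 * (C₁ * W) := mul_le_mul_of_nonneg_left hlogs (by norm_num)
      _ = 8 * C₁ * W := by ring
  rw [← hW]
  calc _ ≤ 3 * W + (10 * (r + 1) * ((9 * r + 16) * 2 ^ r) ^ (r + 1)) * C₁ * W + 8 * C₁ * W :=
        add_le_add (add_le_add s1 s2) s3
    _ = _ := by ring

end Pool.Agent.Helper91.GT
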