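import Pool.Agent.Helper91.GT.Real2
import Mathlib.NumberTheory.Chebyshev

/-!
# The choice of the parameters, when the set of the primes grows with `X`
-/

set_option autoImplicit false

namespace Pool.Agent.Helper91.GT

open Finset Pool.Agent.Y18.GX Pool.Agent.E8helper53.GS

lemma card_B1all_real' {η X : ℝ} (hX : 2 ≤ X) {Z Y : ℕ} {n : ℕ → ℕ} (hYX : (Y : ℝ) ≤ X)
    (hn : ∀ ℓ, ℓ.Prime → ℓ ≤ Z → X ^ η ≤ (ℓ : ℝ) ^ n ℓ) :
    ((B1all n Z Y).card : ℝ) ≤ Z * (2 * (X / X ^ η) + Z) := by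
  have hX0 : (0 : ℝ) < X := by linarith
  have hZ0 : (0 : ℝ) ≤ Z := by positivity
  have h1 : ((B1all n Z Y).card : ℝ) ≤ ∑ ℓ ∈ (Icc 1 Z).filter Nat.Prime, (2 * (X / X ^ η) + (Z : ℝ)) := by
    calc ((B1all n Z Y).card : ℝ) ≤ ((∑ ℓ ∈ (Icc 1 Z).filter Nat.Prime, (B1 ℓ (n ℓ) Y).card : ℕ) : ℝ) := by
          exact_mod_cast card_biUnion_le
      _ = ∑ ℓ ∈ (Icc 1 Z).filter Nat.Prime, ((B1 ℓ (n ℓ) Y).card : ℝ) := by push_cast; rfl
      _ ≤ _ := by
          refine sum_le_sum fun ℓ hℓ => ?_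
          rw [mem_filter, mem_Icc] at hℓ
          obtain ⟨⟨-, hℓZ⟩, hℓp⟩ := hℓ
          have h2 := card_B1 hℓp (n ℓ) Y
          have h3 : ((B1 ℓ (n ℓ) Y).card : ℝ) ≤ 2 * ((Y / ℓ ^ n ℓ : ℕ) : ℝ) + ℓ := by exact_mod_cast h2
          have h4 : ((Y / ℓ ^ n ℓ : ℕ) : ℝ) ≤ X / X ^ η := by
            calc ((Y / ℓ ^ n ℓ : ℕ) : ℝ) ≤ (Y : ℝ) / ((ℓ ^ n ℓ : ℕ) : ℝ) := Nat.cast_div_le
              _ ≤ X / X ^ η := by
                  refine div_le_div₀ hX0.le hYX (by positivity) ?_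
                  push_cast
                  exact hn ℓ hℓp hℓZ
          have h5 : (ℓ : ℝ) ≤ Z := by exact_mod_cast hℓZ
          linarith
  have h2 : (((Icc 1 Z).filter Nat.Prime).card : ℝ) ≤ Z := by
    have h3 : ((Icc 1 Z).filter Nat.Prime).card ≤ Z := by
      refine (card_filter_le _ _).trans ?_
      rw [Nat.card_Icc, Nat.add_sub_cancel]
    exact_mod_cast h3
  rw [sum_const, nsmul_eq_mul] at h1
  exact h1.trans (mul_le_mul_of_nonneg_right h2 (by positivity))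

lemma pi_le {z : ℝ} (hz : 256 ≤ z) : (Nat.primeCounting ⌊z⌋₊ : ℝ) ≤ 4 * z / Real.log z := by
  have hz0 : 0 < z := by linarith
  have h1 := Chebyshev.pi_le_log4_mul_div (x := z) (by linarith)
  have hlog : 0 < Real.log z := Real.log_pos (by linarith)
  have h2 : Real.log √z = Real.log z / 2 := Real.log_sqrt hz0.le
  have h3 : Real.log z ≤ √z := by
    have h4 : Real.log z ≤ z ^ (1 / 4 : ℝ) / (1 / 4) := Real.log_le_rpow_div hz0.le (by norm_num)
    have h5 : (4 : ℝ) ≤ z ^ (1 / 4 : ℝ) := by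
      calc (4 : ℝ) = (256 : ℝ) ^ (1 / 4 : ℝ) := by
            rw [show (256 : ℝ) = 4 ^ (4 : ℝ) by norm_num, ← Real.rpow_mul (by norm_num)]
            norm_num
        _ ≤ z ^ (1 / 4 : ℝ) := Real.rpow_le_rpow (by norm_num) hz (by norm_num)
    have h6 : √z = z ^ (1 / 4 : ℝ) * z ^ (1 / 4 : ℝ) := by
      rw [← Real.rpow_add hz0, Real.sqrt_eq_rpow]
      norm_num
    rw [h6]
    have h7 : z ^ (1 / 4 : ℝ) / (1 / 4) = 4 * z ^ (1 / 4 : ℝ) := by ring
    rw [h7] at h4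
    exact h4.trans (mul_le_mul_of_nonneg_right h5 (by positivity))
  have h8 : √z ≤ z / Real.log z := by
    rw [le_div_iff₀ hlog]
    calc √z * Real.log z ≤ √z * √z := mul_le_mul_of_nonneg_left h3 (Real.sqrt_nonneg _)
      _ = z := Real.mul_self_sqrt hz0.le
  have h9 : Real.log 4 ≤ 7 / 5 := by
    have h10 : Real.log 4 = 2 * Real.log 2 := by
      rw [show (4 : ℝ) = 2 ^ 2 by norm_num, Real.log_pow]
      norm_num
    have := Real.log_two_lt_d9
    rw [h10]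
    linarith
  have h11 : Real.log 4 * z / Real.log √z ≤ 3 * (z / Real.log z) := by
    rw [h2]
    have h12 : Real.log 4 * z / (Real.log z / 2) = (2 * Real.log 4) * (z / Real.log z) := by
      field_simp
    rw [h12]
    exact mul_le_mul_of_nonneg_right (by linarith) (by positivity)
  calc (Nat.primeCounting ⌊z⌋₊ : ℝ) ≤ Real.log 4 * z / Real.log √z + √z := h1
    _ ≤ 3 * (z / Real.log z) + z / Real.log z := add_le_add h11 h8
    _ = 4 * z / Real.log z := by ring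

lemma prod_bound {r t : ℕ} {z : ℝ} (hr : 1 ≤ r) (hz : 2 ≤ z) (ht : (t : ℝ) ≤ z ^ 3) :
    (10 * ((r : ℝ) + 1) * ((9 * r + 16) * 2 ^ r) ^ (r + 1)) * (t : ℝ) ^ (r + 3) * z ^ (r ^ 2 + 5 * r) ≤
      z ^ (35 * r ^ 2) := by
  have hz1 : (1 : ℝ) ≤ z := by linarith
  have h0 : ((r : ℝ) + 1) ≤ 2 ^ r := by
    have h := Nat.lt_two_pow_self (n := r)
    have h2 : ((r + 1 : ℕ) : ℝ) ≤ ((2 ^ r : ℕ) : ℝ) := by exact_mod_cast h
    push_cast at h2
    exact h2
  have h1 : 10 * ((r : ℝ) + 1) ≤ 2 ^ (r + 4) := by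
    rw [pow_add]
    have : (0 : ℝ) < 2 ^ r := by positivity
    nlinarith
  have h2 : (9 * (r : ℝ) + 16) * 2 ^ r ≤ 2 ^ (2 * r + 4) := by
    have h3 : (9 * (r : ℝ) + 16) ≤ 16 * 2 ^ r := by
      have h4 : (0 : ℝ) ≤ r := by positivity
      linarith
    calc (9 * (r : ℝ) + 16) * 2 ^ r ≤ (16 * 2 ^ r) * 2 ^ r := mul_le_mul_of_nonneg_right h3 (by positivity)
      _ = 2 ^ (2 * r + 4) := by
          rw [pow_add, two_mul, pow_add]
          ring
  have h3 : (10 * ((r : ℝ) + 1) * ((9 * r + 16) * 2 ^ r) ^ (r + 1)) ≤ z ^ ((r + 4) + (2 * r + 4) * (r + 1)) := by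
    calc (10 * ((r : ℝ) + 1) * ((9 * r + 16) * 2 ^ r) ^ (r + 1)) ≤ 2 ^ (r + 4) * (2 ^ (2 * r + 4)) ^ (r + 1) :=
          mul_le_mul h1 (pow_le_pow_left₀ (by positivity) h2 _) (by positivity) (by positivity)
      _ = 2 ^ ((r + 4) + (2 * r + 4) * (r + 1)) := by rw [← pow_mul, ← pow_add]
      _ ≤ z ^ ((r + 4) + (2 * r + 4) * (r + 1)) := pow_le_pow_left₀ (by norm_num) hz _
  have h4 : (t : ℝ) ^ (r + 3) ≤ z ^ (3 * (r + 3)) := by
    rw [pow_mul]
    exact pow_le_pow_left₀ (by positivity) ht _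
  calc (10 * ((r : ℝ) + 1) * ((9 * r + 16) * 2 ^ r) ^ (r + 1)) * (t : ℝ) ^ (r + 3) * z ^ (r ^ 2 + 5 * r)
      ≤ z ^ ((r + 4) + (2 * r + 4) * (r + 1)) * z ^ (3 * (r + 3)) * z ^ (r ^ 2 + 5 * r) := by
        refine mul_le_mul_of_nonneg_right ?_ (by positivity)
        exact mul_le_mul h3 h4 (by positivity) (by positivity)
    _ = z ^ (((r + 4) + (2 * r + 4) * (r + 1)) + 3 * (r + 3) + (r ^ 2 + 5 * r)) := by rw [← pow_add, ← pow_add]
    _ ≤ z ^ (35 * r ^ 2) := by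
        refine pow_le_pow_right₀ hz1 ?_
        nlinarith

lemma num1 {τ s B A : ℝ} (hτ1 : τ ≤ 1) (hs0 : 0 < s) (hB : 1 ≤ B) (hA : 0 ≤ A)
    (hsτ : 2240 * B ^ 2 + 8 * B * (A + 2) ≤ s * τ) : 2240 * B ≤ s := by
  have h1 : s * τ ≤ s * 1 := mul_le_mul_of_nonneg_left hτ1 hs0.le
  have h2 : B * 1 ≤ B * B := mul_le_mul_of_nonneg_left hB (by linarith)
  have h3 : 0 ≤ 8 * B * (A + 2) := by positivity
  nlinarith

lemma num2 {s B : ℝ} (hs0 : 0 < s) (h : 2240 * B ≤ s) : 16 * (B * s) ≤ 1 + 2 * s + (2 * s) ^ 2 / 2 := by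
  have h1 : (2240 * B) * s ≤ s * s := mul_le_mul_of_nonneg_right h hs0.le
  nlinarith

lemma num3 {s B : ℝ} : (B * s) * (B * s) ≤ 24 * B ^ 2 * s ^ 2 := by
  have h1 : 0 ≤ (B * s) ^ 2 := sq_nonneg _
  nlinarith

lemma num4 {s B : ℝ} (hs : 1 ≤ s) (hB : 1 ≤ B) : B * s ≤ 24 * B ^ 2 * s ^ 2 := by
  have h0 : 1 * 1 ≤ B * s := mul_le_mul hB hs (by norm_num) (by linarith)
  have h1 : (B * s) * 1 ≤ (B * s) * (B * s) := mul_le_mul_of_nonneg_left (by linarith) (by linarith)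
  have h2 := num3 (s := s) (B := B)
  linarith

lemma num5 {s B t : ℝ} (hs : 1 ≤ s) (hB : 1 ≤ B) (ht : t ≤ 3 * s ^ 2) : 4 * (t + 1) ≤ 24 * B ^ 2 * s ^ 2 := by
  have h0 : 1 ≤ B ^ 2 := one_le_pow₀ hB
  have h1 : 1 ≤ s ^ 2 := one_le_pow₀ hs
  have h2 : 1 * s ^ 2 ≤ B ^ 2 * s ^ 2 := mul_le_mul_of_nonneg_right h0 (by linarith)
  linarith

lemma num6 {τ s B A : ℝ} (hB : 1 ≤ B) (hA : 0 ≤ A)
    (hsτ : 2240 * B ^ 2 + 8 * B * (A + 2) ≤ s * τ) : 4 * (A + 1) ≤ s * τ := by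
  have h0 : 1 ≤ B ^ 2 := one_le_pow₀ hB
  have h1 : 1 * (A + 2) ≤ B * (A + 2) := mul_le_mul_of_nonneg_right hB (by linarith)
  linarith

lemma num7 {D s : ℝ} (hD : 2240 ≤ D) (hs : D + 1 ≤ s) : 2240 ≤ s ^ 2 := by
  have h1 : 1 * s ≤ s * s := mul_le_mul_of_nonneg_right (by linarith) (by linarith)
  nlinarith

/-- the choice of the parameters -/
theorem params2 {c A B : ℝ} (hc : 0 ≤ c) (hc2 : c < 1 / 2) (hA : 0 ≤ A) (hB : 1 ≤ B) :
    ∃ X₀ : ℝ, ∀ X : ℝ, X₀ ≤ X → 2 ≤ X ∧ ∃ Z r : ℕ, Z = ⌊B * √(Real.log X)⌋₊ ∧ r = Nat.primeCounting Z ∧ 1 ≤ Z ∧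
      ∃ (n : ℕ → ℕ) (T κ : ℕ), 1 ≤ T ∧
      (∀ ℓ, ℓ.Prime → ℓ ≤ Z → ℓ ^ n ℓ ≤ T) ∧
      (2 * ⌊X ^ c⌋₊ * ⌊X⌋₊ * (T ^ r * (4 * Z ^ (2 * r) * ⌊X ^ c⌋₊) + 1) ^ 3) ^ ((Z + 1) ^ r) ≤ 2 ^ κ ∧
      ((B1all n Z ⌊X⌋₊).card : ℝ) + ((B2 n Z κ r ⌊X ^ c⌋₊).card : ℝ) +
        ((((Icc 2 ⌊X ^ c⌋₊).biUnion bad0).card : ℕ) : ℝ) ≤ X * Real.exp (-(A * √(Real.log X))) := by
  obtain ⟨τ, hτ⟩ : ∃ τ, τ = 1 - 2 * c := ⟨_, rfl⟩
  have hτ0 : 0 < τ := by linarith
  have hτ1 : τ ≤ 1 := by linarith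
  obtain ⟨D, hD⟩ : ∃ D, D = (2240 * B ^ 2 + 8 * B * (A + 2)) / τ := ⟨_, rfl⟩
  have hDτ : D * τ = 2240 * B ^ 2 + 8 * B * (A + 2) := by
    rw [hD]
    field_simp
  have hB2 : 1 ≤ B ^ 2 := one_le_pow₀ hB
  have hBA : A + 2 ≤ B * (A + 2) := le_mul_of_one_le_left (by linarith) hB
  have hD1 : 2240 ≤ D := by
    have h1 : D * τ ≤ D * 1 := by
      refine mul_le_mul_of_nonneg_left hτ1 ?_
      rw [hD]
      positivity
    linarith
  refine ⟨Real.exp (Real.exp D ^ 2), fun X hX₀ => ?_⟩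
  have hX0 : 0 < X := lt_of_lt_of_le (Real.exp_pos _) hX₀
  obtain ⟨s, hs⟩ : ∃ s, s = √(Real.log X) := ⟨_, rfl⟩
  have hL : Real.exp D ^ 2 ≤ Real.log X := by
    rw [Real.le_log_iff_exp_le hX0]
    exact hX₀
  have hL0 : 0 ≤ Real.log X := le_trans (by positivity) hL
  have hs2 : s ^ 2 = Real.log X := by
    rw [hs, Real.sq_sqrt hL0]
  have hsD : Real.exp D ≤ s := by
    rw [hs]
    exact Real.le_sqrt_of_sq_le hL
  have hs1 : D + 1 ≤ s := (Real.add_one_le_exp D).trans hsD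
  have hs0 : 0 < s := by linarith
  have hXs : X = Real.exp (s ^ 2) := by
    rw [hs2, Real.exp_log hX0]
  have hsτ : 2240 * B ^ 2 + 8 * B * (A + 2) ≤ s * τ := by
    rw [← hDτ]
    exact mul_le_mul_of_nonneg_right (by linarith) hτ0.le
  have hX2 : 2 ≤ X := by
    rw [hXs]
    have h1 : s ^ 2 + 1 ≤ Real.exp (s ^ 2) := Real.add_one_le_exp _
    have h2 := num7 hD1 hs1
    linarith
  have hX1 : 1 ≤ X := by linarith
  refine ⟨hX2, ?_⟩
  rw [← hs]
  obtain ⟨z, hz⟩ : ∃ z, z = B * s := ⟨_, rfl⟩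
  have hzs : s ≤ z := by
    rw [hz]
    exact le_mul_of_one_le_left hs0.le hB
  have hz0 : 0 < z := by linarith
  have hz2 : 2 ≤ z := by linarith
  have hlogs : D ≤ Real.log s := by
    rw [Real.le_log_iff_exp_le hs0]
    exact hsD
  have hlogz : D ≤ Real.log z := hlogs.trans (Real.log_le_log hs0 hzs)
  have hlogz0 : 0 < Real.log z := by linarith
  obtain ⟨Z, hZ⟩ : ∃ Z, Z = ⌊z⌋₊ := ⟨_, rfl⟩
  have hZz : (Z : ℝ) ≤ z := by
    rw [hZ]
    exact Nat.floor_le hz0.le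
  have hZ2 : 2 ≤ Z := by
    rw [hZ]
    exact Nat.le_floor (by exact_mod_cast hz2)
  obtain ⟨r, hr⟩ : ∃ r, r = Nat.primeCounting Z := ⟨_, rfl⟩
  have hr1 : 1 ≤ r := by
    rw [hr]
    have h1 : Nat.primeCounting 2 ≤ Nat.primeCounting Z := Nat.monotone_primeCounting hZ2
    have h2 : Nat.primeCounting 2 = 1 := by decide
    omega
  have hr1R : (1 : ℝ) ≤ r := by exact_mod_cast hr1
  have hrz : (r : ℝ) ≤ 4 * z / Real.log z := by
    rw [hr, hZ]
    exact pi_le (by linarith)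
  refine ⟨Z, r, by rw [hZ, hz], hr, by omega, ?_⟩
  -- the exponent `η`
  obtain ⟨η, hη⟩ : ∃ η, η = τ / (2 * r) := ⟨_, rfl⟩
  have hη0 : 0 < η := by
    rw [hη]
    positivity
  have hrη : r * η = τ / 2 := by
    rw [hη]
    field_simp
  have hη2 : η ≤ 1 / 2 := by
    have h1 : 1 * η ≤ r * η := mul_le_mul_of_nonneg_right hr1R hη0.le
    linarith
  have hXη : Real.exp ((A + 2) * s) ≤ X ^ η := by
    rw [hXs, ← Real.exp_mul, Real.exp_le_exp]
    have h1 : (r : ℝ) * (2 * (A + 2)) ≤ τ * s := by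
      calc (r : ℝ) * (2 * (A + 2)) ≤ 4 * z / Real.log z * (2 * (A + 2)) :=
            mul_le_mul_of_nonneg_right hrz (by linarith)
        _ = (8 * B * (A + 2)) * s / Real.log z := by
            rw [hz]
            ring
        _ ≤ τ * s := by
            rw [div_le_iff₀ hlogz0]
            have h2 : 8 * B * (A + 2) ≤ τ * Real.log z := by
              calc 8 * B * (A + 2) ≤ D * τ := by
                    rw [hDτ]
                    linarith
                _ ≤ Real.log z * τ := mul_le_mul_of_nonneg_right hlogz hτ0.le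
                _ = τ * Real.log z := mul_comm _ _
            calc 8 * B * (A + 2) * s ≤ τ * Real.log z * s := mul_le_mul_of_nonneg_right h2 hs0.le
              _ = τ * s * Real.log z := by ring
    rw [hη]
    have h3 : s ^ 2 * (τ / (2 * r)) = s * (τ * s) / (2 * r) := by ring
    rw [h3, le_div_iff₀ (by positivity)]
    calc (A + 2) * s * (2 * r) = s * (r * (2 * (A + 2))) := by ring
      _ ≤ s * (τ * s) := mul_le_mul_of_nonneg_left h1 hs0.le
  set Y := ⌊X⌋₊ with hY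
  have hYX : (Y : ℝ) ≤ X := Nat.floor_le hX0.le
  have hY2 : 2 ≤ Y := Nat.le_floor (by exact_mod_cast hX2)
  set Q := ⌊X ^ c⌋₊ with hQ
  have hQX : (Q : ℝ) ≤ X ^ c := Nat.floor_le (by positivity)
  have hQ1 : 1 ≤ Q := Nat.le_floor (by exact_mod_cast Real.one_le_rpow hX1 hc)
  obtain ⟨E, hE⟩ : ∃ E, E = ⌊X ^ η⌋₊ := ⟨_, rfl⟩
  have hEX : (E : ℝ) ≤ X ^ η := by
    rw [hE]
    exact Nat.floor_le (by positivity)
  have hE1 : 1 ≤ E := by
    rw [hE]
    exact Nat.le_floor (by exact_mod_cast Real.one_le_rpow hX1 hη0.le)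
  set t := Nat.log 2 Y + 1 with htdef
  have ht : 1 ≤ t := by omega
  have htX : X < (2 : ℝ) ^ t := by
    have h2 : Y < 2 ^ (Nat.log 2 Y + 1) := Nat.lt_pow_succ_log_self (by norm_num) _
    have h3 : X < ((2 ^ (Nat.log 2 Y + 1) : ℕ) : ℝ) := (Nat.floor_lt hX0.le).1 h2
    push_cast at h3
    exact h3
  have hlog2 : (2 : ℝ) / 3 ≤ Real.log 2 := by
    have := Real.log_two_gt_d9
    linarith
  have ht3 : (t : ℝ) ≤ 3 * s ^ 2 := by
    have e1 : (2 : ℝ) ^ (Nat.log 2 Y) ≤ X := by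
      have e2 : ((2 ^ (Nat.log 2 Y) : ℕ) : ℝ) ≤ Y := by exact_mod_cast Nat.pow_log_le_self 2 (by omega)
      push_cast at e2
      exact e2.trans hYX
    have e2 := Real.log_le_log (by positivity) e1
    rw [Real.log_pow] at e2
    have e4 : ((Nat.log 2 Y : ℕ) : ℝ) * (2 / 3) ≤ Real.log X := by
      calc ((Nat.log 2 Y : ℕ) : ℝ) * (2 / 3) ≤ ((Nat.log 2 Y : ℕ) : ℝ) * Real.log 2 :=
            mul_le_mul_of_nonneg_left hlog2 (by positivity)
        _ ≤ Real.log X := e2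
    rw [htdef]
    push_cast
    rw [hs2]
    have h5 : 2240 ≤ Real.log X := by
      rw [← hs2]
      exact num7 hD1 hs1
    linarith
  have ht4 : (t : ℝ) ≤ z ^ 3 := by
    calc (t : ℝ) ≤ 3 * s ^ 2 := ht3
      _ ≤ z * z ^ 2 := mul_le_mul (by linarith) (pow_le_pow_left₀ hs0.le hzs 2) (by positivity) hz0.le
      _ = z ^ 3 := by ring
  have hpow : ∀ a : ℝ, a ≤ 1 → X ^ a ≤ X := fun a ha => by
    calc X ^ a ≤ X ^ (1 : ℝ) := Real.rpow_le_rpow_of_exponent_le hX1 ha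
      _ = X := Real.rpow_one X
  have hQX' : (Q : ℝ) ≤ X := hQX.trans (hpow c (by linarith))
  -- `24 B² s² ≤ exp ((τ / 2) s²)`
  have hbig : 24 * B ^ 2 * s ^ 2 ≤ Real.exp (τ / 2 * s ^ 2) := by
    have h1 := Real.quadratic_le_exp_of_nonneg (x := τ / 2 * s ^ 2) (by positivity)
    have h2 : 2240 * B ^ 2 ≤ s * τ := by
      have : 0 ≤ 8 * B * (A + 2) := by positivity
      linarith
    have h3 : (2240 * B ^ 2) ^ 2 ≤ (s * τ) ^ 2 := pow_le_pow_left₀ (by positivity) h2 2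
    have h4 : 192 * B ^ 2 ≤ (s * τ) ^ 2 := by
      refine le_trans ?_ h3
      have h4a : B ^ 2 * 1 ≤ B ^ 2 * B ^ 2 := mul_le_mul_of_nonneg_left hB2 (by positivity)
      have h4b : (2240 * B ^ 2) ^ 2 = 2240 ^ 2 * (B ^ 2 * B ^ 2) := by ring
      rw [h4b]
      linarith
    have h5 : 24 * B ^ 2 * s ^ 2 ≤ (τ / 2 * s ^ 2) ^ 2 / 2 := by
      have h6 : (τ / 2 * s ^ 2) ^ 2 / 2 = (s * τ) ^ 2 * s ^ 2 / 8 := by ring
      rw [h6]
      have h7 : 192 * B ^ 2 * s ^ 2 ≤ (s * τ) ^ 2 * s ^ 2 := mul_le_mul_of_nonneg_right h4 (by positivity)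
      linarith
    have h8 : 0 ≤ τ / 2 * s ^ 2 := by positivity
    linarith
  have hzX : z ≤ X ^ (1 / 2 : ℝ) := by
    rw [hXs, ← Real.exp_mul]
    have h1 : Real.exp (τ / 2 * s ^ 2) ≤ Real.exp (s ^ 2 * (1 / 2)) := by
      rw [Real.exp_le_exp]
      have : τ * s ^ 2 ≤ 1 * s ^ 2 := mul_le_mul_of_nonneg_right hτ1 (by positivity)
      linarith
    refine le_trans ?_ h1
    refine le_trans ?_ hbig
    rw [hz]
    exact num4 (by linarith) hB
  have hle : ∀ k : ℕ, (k : ℝ) ≤ X → k ≤ 2 ^ t := fun k hk => by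
    have : (k : ℝ) ≤ ((2 ^ t : ℕ) : ℝ) := by
      push_cast
      linarith
    exact_mod_cast this
  have hZX' : (Z : ℝ) ≤ X := hZz.trans (hzX.trans (hpow _ (by norm_num)))
  have hEZX : ((E * Z : ℕ) : ℝ) ≤ X := by
    push_cast
    calc (E : ℝ) * Z ≤ X ^ η * X ^ (1 / 2 : ℝ) := mul_le_mul hEX (hZz.trans hzX) (by positivity) (by positivity)
      _ = X ^ (η + 1 / 2) := by rw [← Real.rpow_add hX0]
      _ ≤ X := hpow _ (by linarith)
  have hlogX : Real.log X ≤ t := by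
    have h1 := Real.log_le_log hX0 htX.le
    rw [Real.log_pow] at h1
    have h2 : Real.log 2 ≤ 1 := by
      have := Real.log_two_lt_d9
      linarith
    calc Real.log X ≤ t * Real.log 2 := h1
      _ ≤ t * 1 := mul_le_mul_of_nonneg_left h2 (by positivity)
      _ = t := mul_one _
  have ht1 : (1 : ℝ) ≤ t := by exact_mod_cast ht
  have hT : ∀ ℓ, ℓ.Prime → ℓ ≤ Z → ℓ ^ (Nat.log ℓ E + 1) ≤ E * Z := fun ℓ hℓ hℓZ => by
    rw [pow_succ]
    exact Nat.mul_le_mul (Nat.pow_log_le_self ℓ (by omega)) hℓZ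
  have hn : ∀ ℓ, ℓ.Prime → ℓ ≤ Z → X ^ η ≤ (ℓ : ℝ) ^ (Nat.log ℓ E + 1) := fun ℓ hℓ _ => by
    have h2 : E < ℓ ^ (Nat.log ℓ E + 1) := Nat.lt_pow_succ_log_self hℓ.one_lt _
    rw [hE] at h2
    have h3 : X ^ η < ((ℓ ^ (Nat.log ℓ ⌊X ^ η⌋₊ + 1) : ℕ) : ℝ) := (Nat.floor_lt (by positivity)).1 h2
    push_cast at h3
    rw [← hE] at h3
    exact h3.le
  refine ⟨fun ℓ => Nat.log ℓ E + 1, E * Z, t * (9 * r + 15) * (Z + 1) ^ r, Nat.mul_pos hE1 (by omega), hT,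
    kappa_bound ht (hle Q hQX') (hle Y hYX) (hle _ hEZX) (hle Z hZX'), ?_⟩
  -- the final size
  have hAs : A * s + 3 ≤ τ / 4 * s ^ 2 := by
    have h1 : 4 * (A + 1) ≤ s * τ := num6 hB hA hsτ
    have h2 : (A + 1) * s ≤ τ / 4 * s ^ 2 := by
      calc (A + 1) * s ≤ (s * τ / 4) * s := mul_le_mul_of_nonneg_right (by linarith) hs0.le
        _ = τ / 4 * s ^ 2 := by ring
    linarith
  have he3 : Real.exp (-3) ≤ 1 / 8 := by
    have h1 := Real.quadratic_le_exp_of_nonneg (x := 3) (by norm_num)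
    rw [Real.exp_neg, inv_eq_one_div]
    exact one_div_le_one_div_of_le (by norm_num) (by linarith)
  obtain ⟨R, hR⟩ : ∃ R, R = X * Real.exp (-(A * s)) := ⟨_, rfl⟩
  have hR0 : 0 < R := by
    rw [hR]
    exact mul_pos hX0 (Real.exp_pos _)
  have hfin : Real.exp ((1 - τ / 4) * s ^ 2) ≤ R / 8 := by
    have h1 : Real.exp ((1 - τ / 4) * s ^ 2) ≤ Real.exp (s ^ 2 + -(A * s) + -3) := by
      rw [Real.exp_le_exp]
      linarith
    rw [Real.exp_add, Real.exp_add, ← hXs, ← hR] at h1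
    have h2 : R * Real.exp (-3) ≤ R * (1 / 8) := mul_le_mul_of_nonneg_left he3 hR0.le
    linarith
  -- the first part
  have r1 := card_B1all_real' (η := η) (Z := Z) (Y := Y) (n := fun ℓ => Nat.log ℓ E + 1) hX2 hYX hn
  have s1 : ((B1all (fun ℓ => Nat.log ℓ E + 1) Z Y).card : ℝ) ≤ R / 4 := by
    have h1 : X / X ^ η ≤ X * Real.exp (-((A + 2) * s)) := by
      rw [Real.exp_neg, ← div_eq_mul_inv]
      exact div_le_div_of_nonneg_left hX0.le (Real.exp_pos _) hXη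
    have h2 : X * Real.exp (-((A + 2) * s)) = R * Real.exp (-(2 * s)) := by
      rw [hR, mul_assoc, ← Real.exp_add]
      congr 2
      ring
    have h3 : z * (2 * (R * Real.exp (-(2 * s)))) ≤ R / 8 := by
      have h4 := Real.quadratic_le_exp_of_nonneg (x := 2 * s) (by positivity)
      have h5 : 16 * z ≤ Real.exp (2 * s) := by
        refine le_trans ?_ h4
        rw [hz]
        exact num2 hs0 (num1 hτ1 hs0 hB hA hsτ)
      have h8 : 16 * z * Real.exp (-(2 * s)) ≤ 1 := by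
        rw [Real.exp_neg, ← div_eq_mul_inv, div_le_one (Real.exp_pos _)]
        exact h5
      have h9 : z * (2 * (R * Real.exp (-(2 * s)))) = R / 8 * (16 * z * Real.exp (-(2 * s))) := by ring
      rw [h9]
      exact mul_le_of_le_one_right (by positivity) h8
    have h10 : z * z ≤ R / 8 := by
      refine le_trans ?_ hfin
      have h11 : Real.exp (τ / 2 * s ^ 2) ≤ Real.exp ((1 - τ / 4) * s ^ 2) := by
        rw [Real.exp_le_exp]
        exact mul_le_mul_of_nonneg_right (by linarith) (by positivity)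
      refine le_trans ?_ h11
      refine le_trans ?_ hbig
      rw [hz]
      exact num3
    calc ((B1all (fun ℓ => Nat.log ℓ E + 1) Z Y).card : ℝ) ≤ Z * (2 * (X / X ^ η) + Z) := r1
      _ ≤ z * (2 * (R * Real.exp (-(2 * s))) + z) := by
          refine mul_le_mul hZz ?_ (by positivity) hz0.le
          rw [← h2]
          linarith
      _ = z * (2 * (R * Real.exp (-(2 * s)))) + z * z := by ring
      _ ≤ R / 4 := by linarith
  -- the second part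
  obtain ⟨c', hc'⟩ : ∃ c', c' = Real.log z / Real.log X := ⟨_, rfl⟩
  have hXc' : X ^ c' = z := by
    rw [Real.rpow_def_of_pos hX0, hc', mul_div_cancel₀ _ (by rw [← hs2]; positivity), Real.exp_log hz0]
  have r2 := card_B2_real (r := r) (c := c) (c' := c') (η := η) (n := fun ℓ => Nat.log ℓ E + 1) hX2 hQ1
    (by omega : 1 ≤ Z) hE1 ht hQX (by rw [hXc']; exact hZz) hEX hlogX hQX' (hle Z hZX') (hle Q hQX') hT
  have s2 : ((B2 (fun ℓ => Nat.log ℓ E + 1) Z (t * (9 * r + 15) * (Z + 1) ^ r) r Q).card : ℝ) ≤ R / 8 := by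
    refine r2.trans (le_trans ?_ hfin)
    have h1 : X ^ (2 * c + ((r : ℝ) ^ 2 + 5 * r) * c' + r * η) = z ^ (r ^ 2 + 5 * r) * X ^ (2 * c + τ / 2) := by
      rw [hrη, show 2 * c + ((r : ℝ) ^ 2 + 5 * r) * c' + τ / 2 =
        c' * ((r ^ 2 + 5 * r : ℕ) : ℝ) + (2 * c + τ / 2) by push_cast; ring, Real.rpow_add hX0,
        Real.rpow_mul hX0.le, hXc', Real.rpow_natCast]
    have h2 := prod_bound (t := t) hr1 hz2 ht4
    have h3 : z ^ (35 * r ^ 2) ≤ Real.exp (τ / 4 * s ^ 2) := by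
      rw [← Real.exp_log (pow_pos hz0 _), Real.log_pow, Real.exp_le_exp]
      push_cast
      have h4 : (r : ℝ) * Real.log z ≤ 4 * z := by
        rw [le_div_iff₀ hlogz0] at hrz
        exact hrz
      have h5 : ((r : ℝ) * Real.log z) ^ 2 ≤ (4 * z) ^ 2 := pow_le_pow_left₀ (by positivity) h4 2
      have h6 : (35 * (r : ℝ) ^ 2 * Real.log z) * Real.log z ≤ (τ / 4 * s ^ 2) * Real.log z := by
        have h7 : 2240 * B ^ 2 ≤ τ * Real.log z := by
          have h8 : D * τ ≤ Real.log z * τ := mul_le_mul_of_nonneg_right hlogz hτ0.le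
          have h9 : 0 ≤ 8 * B * (A + 2) := by positivity
          linarith
        calc (35 * (r : ℝ) ^ 2 * Real.log z) * Real.log z = 35 * ((r : ℝ) * Real.log z) ^ 2 := by ring
          _ ≤ 35 * (4 * z) ^ 2 := by linarith
          _ = (2240 * B ^ 2) * (s ^ 2 / 4) := by
              rw [hz]
              ring
          _ ≤ (τ * Real.log z) * (s ^ 2 / 4) := mul_le_mul_of_nonneg_right h7 (by positivity)
          _ = (τ / 4 * s ^ 2) * Real.log z := by ring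
      exact le_of_mul_le_mul_right h6 hlogz0
    rw [h1]
    calc (10 * ((r : ℝ) + 1) * ((9 * r + 16) * 2 ^ r) ^ (r + 1)) * (t : ℝ) ^ (r + 3) *
          (z ^ (r ^ 2 + 5 * r) * X ^ (2 * c + τ / 2))
        = ((10 * ((r : ℝ) + 1) * ((9 * r + 16) * 2 ^ r) ^ (r + 1)) * (t : ℝ) ^ (r + 3) *
          z ^ (r ^ 2 + 5 * r)) * X ^ (2 * c + τ / 2) := by ring
      _ ≤ Real.exp (τ / 4 * s ^ 2) * X ^ (2 * c + τ / 2) :=
          mul_le_mul_of_nonneg_right (h2.trans h3) (by positivity)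
      _ = Real.exp ((1 - τ / 4) * s ^ 2) := by
          rw [hXs, ← Real.exp_mul, ← Real.exp_add]
          congr 1
          rw [hτ]
          ring
  -- the trivial character
  have r3 : ((((Icc 2 Q).biUnion bad0).card : ℕ) : ℝ) ≤ 4 * (t + 1) * (Q : ℝ) ^ 2 := by
    have h1 := card_A0' (M := Q) (s := t + 1) (by
      have h2 := hle Q hQX'
      have h3 : 1 ≤ 2 ^ t := Nat.one_le_pow _ _ (by norm_num)
      rw [pow_succ]
      omega)
    exact_mod_cast h1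
  have s3 : ((((Icc 2 Q).biUnion bad0).card : ℕ) : ℝ) ≤ R / 8 := by
    refine r3.trans (le_trans ?_ hfin)
    have h1 : (Q : ℝ) ^ 2 ≤ Real.exp (2 * c * s ^ 2) := by
      calc (Q : ℝ) ^ 2 ≤ (X ^ c) ^ 2 := pow_le_pow_left₀ (by positivity) hQX 2
        _ = Real.exp (2 * c * s ^ 2) := by
            rw [hXs, ← Real.exp_mul, ← Real.exp_nat_mul]
            congr 1
            push_cast
            ring
    have h2 : 4 * ((t : ℝ) + 1) ≤ Real.exp (τ / 2 * s ^ 2) := by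
      refine le_trans ?_ hbig
      exact num5 (by linarith) hB ht3
    calc 4 * ((t : ℝ) + 1) * (Q : ℝ) ^ 2 ≤ Real.exp (τ / 2 * s ^ 2) * Real.exp (2 * c * s ^ 2) :=
          mul_le_mul h2 h1 (by positivity) (by positivity)
      _ = Real.exp ((1 - τ / 2) * s ^ 2) := by
          rw [← Real.exp_add]
          congr 1
          rw [hτ]
          ring
      _ ≤ Real.exp ((1 - τ / 4) * s ^ 2) := by
          rw [Real.exp_le_exp]
          exact mul_le_mul_of_nonneg_right (by linarith) (by positivity)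
  rw [← hR]
  linarith

end Pool.Agent.Helper91.GT
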