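import Pool.Agent.Helper91.GT.Ord2
import Pool.Agent.Helper91.GT.Eff
import Pool.Graph.R_pool_sql_team_seeded_1acbe0a2.Y18.GX.One
import Pool.Graph.R_pool_sql_team_seeded_1acbe0a2.Y18.GX.Nrm

/-!
# The values for the levels with small exponents, and all levels
-/

set_option autoImplicit false

namespace Pool.Agent.Helper91.GT

open Finset Pool.Agent.Y18.GX Pool.Agent.E8helper53.GS

/-- `(1 - ψ(p) p^(m-1)) B_{m,ψ} / m` -/
noncomputable def val (p m : ℕ) {N : ℕ} (ψ : DirichletCharacter ℂ N) : ℂ :=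
  (1 - ψ (p : ZMod N) * (p : ℂ) ^ (m - 1)) * ((N : ℂ) ^ (m - 1) *
      ∑ a ∈ range N, ψ (a : ZMod N) * (((Polynomial.bernoulli m).eval ((a : ℚ) / N) : ℚ) : ℂ)) / m

/-- the lower bound for the residue degree -/
def rexp (n : ℕ → ℕ) (W : ℕ) : ℕ := ∏ ℓ ∈ W.primeFactors, ℓ ^ (W.factorization ℓ - 2 - n ℓ)

/-- `p` does not divide the order of `ψ` -/
lemma not_dvd_order2 {p N : ℕ} (hp : p.Prime) (hN : N ≠ 0) (hNp : ∀ q ∈ N.primeFactors, q < p)
    (ψ : DirichletCharacter ℂ N) : ¬ p ∣ orderOf ψ := by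
  intro h
  have : NeZero N := ⟨hN⟩
  have h1 : orderOf ψ ∣ N.totient := by
    apply orderOf_dvd_of_pow_eq_one
    ext u
    rw [MulChar.pow_apply_coe, MulChar.one_apply_coe, ← map_pow, ← Units.val_pow_eq_pow_val, ZMod.pow_totient,
      Units.val_one, map_one]
  have h2 : p ∣ N * ∏ q ∈ N.primeFactors, (q - 1) := by
    rw [← Nat.totient_mul_prod_primeFactors]
    exact (h.trans h1).mul_right _
  rcases (hp.dvd_mul).1 h2 with h3 | h3
  · have := hNp p (Nat.mem_primeFactors.2 ⟨hp, h3, hN⟩)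
    omega
  · obtain ⟨q, hq, hd⟩ := (hp.prime.exists_mem_finset_dvd h3)
    have h4 := hNp q hq
    have h5 := (Nat.prime_of_mem_primeFactors hq).two_le
    have h6 := Nat.le_of_dvd (by omega) hd
    omega

lemma rexp_dvd {p : ℕ} (hp : p.Prime) {n : ℕ → ℕ} {a W : ℕ} (hcop : a.Coprime W) (ha0 : a ≠ 0)
    (hW0 : W ≠ 0) (hWp : ∀ ℓ ∈ W.primeFactors, ℓ < p)
    (hn : ∀ ℓ ∈ W.primeFactors, ¬ ℓ ^ (n ℓ + 1) ∣ p ^ ee ℓ - 1) {N : ℕ} (hN : N = a * W)
    (ψ : DirichletCharacter ℂ N) (hprim : ψ.IsPrimitive) {f : ℕ} (hf : 0 < f) (hd : orderOf ψ ∣ p ^ f - 1) :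
    rexp n W ∣ f := by
  have hN0 : N ≠ 0 := by
    rw [hN]
    exact mul_ne_zero ha0 hW0
  unfold rexp
  refine Finset.prod_dvd_of_isRelPrime ?_ ?_
  · intro x hx y hy hxy
    have hx' := Nat.prime_of_mem_primeFactors (mem_coe.1 hx)
    have hy' := Nat.prime_of_mem_primeFactors (mem_coe.1 hy)
    exact Nat.coprime_iff_isRelPrime.1 (((Nat.coprime_primes hx' hy').2 hxy).pow _ _)
  · intro ℓ hℓ
    have hℓp := Nat.prime_of_mem_primeFactors hℓ
    have hℓW := Nat.dvd_of_mem_primeFactors hℓ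
    have hℓa : ¬ ℓ ∣ a := fun h => by
      have h1 := Nat.dvd_gcd h hℓW
      rw [hcop] at h1
      exact hℓp.one_lt.ne' (Nat.dvd_one.1 h1)
    have hfac : N.factorization ℓ = W.factorization ℓ := by
      rw [hN, Nat.factorization_mul ha0 hW0, Finsupp.add_apply, Nat.factorization_eq_zero_of_not_dvd hℓa, zero_add]
    refine (hℓp.pow_dvd_iff_le_factorization hf.ne').2 ?_
    have hNeq : N = (N / ℓ ^ N.factorization ℓ) * ℓ ^ W.factorization ℓ := by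
      rw [← hfac]
      exact (Nat.div_mul_cancel (Nat.ordProj_dvd N ℓ)).symm
    refine degree_large2 hp hℓp (hWp ℓ hℓ).ne' hNeq ?_ ?_ ψ ?_ (hn ℓ hℓ) hf hd
    · refine Nat.Coprime.pow_right _ ?_
      exact (Nat.coprime_ordCompl hℓp hN0).symm
    · exact (Nat.ordCompl_pos ℓ hN0).ne'
    · rw [DirichletCharacter.isPrimitive_def] at hprim
      rw [hprim, ← hfac]
      exact Nat.ordProj_dvd N ℓ

lemma unit_small2 {p : ℕ} (hp : p.Prime) {n : ℕ → ℕ} {a W m : ℕ} (hm : 1 ≤ m) (hmp : m < p)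
    (hcop : a.Coprime W) (ha0 : a ≠ 0) (hap : a < p) (hW0 : W ≠ 0) (hWp : ∀ ℓ ∈ W.primeFactors, ℓ < p)
    (hn : ∀ ℓ ∈ W.primeFactors, ¬ ℓ ^ (n ℓ + 1) ∣ p ^ ee ℓ - 1) {N : ℕ} (hN : N = a * W) (hN1 : 1 < N)
    (hbad : p ∉ badR N m (rexp n W))
    (ψ : DirichletCharacter ℂ N) (hprim : ψ.IsPrimitive) (hpar : ψ (-1) = (-1) ^ m)
    (h1ψ : m = 1 → ψ (p : ZMod N) ≠ 1) : Pool.Agent.Y18.GX.IsUnitAt p (val p m ψ) := by
  classical
  have hne : NeZero N := ⟨by omega⟩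
  have hNp : ∀ q ∈ N.primeFactors, q < p := by
    intro q hq
    have hq' := Nat.prime_of_mem_primeFactors hq
    have hd := Nat.dvd_of_mem_primeFactors hq
    rw [hN] at hd
    rcases (hq'.dvd_mul).1 hd with h | h
    · have := Nat.le_of_dvd (Nat.pos_of_ne_zero ha0) h
      omega
    · exact hWp q (Nat.mem_primeFactors.2 ⟨hq', h, hW0⟩)
  have hpN : ¬ p ∣ N := fun h => by
    have := hNp p (Nat.mem_primeFactors.2 ⟨hp, h, hne.out⟩)
    omega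
  have hord := not_dvd_order2 hp hne.out hNp ψ
  refine unit_of_not_dvd1 hN1 ψ hprim hm hpar hp hmp hpN hord h1ψ fun hD => hbad ?_
  obtain ⟨h0, -⟩ := DG_ne_zero' hN1 ψ hprim hm hpar
  obtain ⟨f, hf, hfD, hfd⟩ := Pool.Agent.Y18.GX.norm_pow (order_pos ψ) hp hord (RG m ψ) hD
  have hfD' : p ^ f ∣ (DG m ψ).natAbs := hfD
  have hr : rexp n W ≤ f := Nat.le_of_dvd hf (rexp_dvd hp hcop ha0 hW0 hWp hn hN ψ hprim hf hfd)
  rw [badR_eq, mem_biUnion]
  refine ⟨ψ, mem_filter.2 ⟨mem_univ _, hprim, hpar⟩, mem_filter.2 ⟨?_, (pow_dvd_pow p hr).trans hfD'⟩⟩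
  rw [Nat.mem_primeFactors]
  exact ⟨hp, hD, Int.natAbs_ne_zero.2 h0⟩

end Pool.Agent.Helper91.GT
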